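import Pool.Agent.Lib.MP_76b24b_lcL.Spec

/-!
# MP_76b24b_lc, package S (self-reducibility): definitions and basic lemmas

`rk`, `cmp`, `num`, `Cx` are in package L (`MP_76b24b_lcL/Base.lean`, `MP_76b24b_lcL/Spec.lean`).
-/

set_option autoImplicit false

namespace Pool.Agent.Lin

open Finset

/-! ## Definitions -/

/-- The inputs of one instance: the `t` digits of the offset, and for every cell `i < 2 ^ t` the bits
`(i, 0)` (is there a letter?) and `(i, 1)` (is the letter marked?). -/
abbrev In (t : ℕ) : Type := Fin t ⊕ (Fin (2 ^ t) × Fin 2)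

/-- The outputs of one instance. -/
abbrev Ou (t : ℕ) : Type := Fin (2 ^ t) × Fin 2

/-- The offset. -/
def off {t : ℕ} (x : In t → Bool) : ℕ := num fun τ => x (Sum.inl τ)

/-- The number of letters before the place `i`. -/
def rkP {t : ℕ} (x : In t → Bool) (i : ℕ) : ℕ :=
  rk Fin.val (fun i : Fin (2 ^ t) => x (Sum.inr (i, 0))) i

/-- The number of letters. -/
def cn {t : ℕ} (x : In t → Bool) : ℕ :=
  (univ.filter fun i : Fin (2 ^ t) => x (Sum.inr (i, 0)) = true).card

/-- Rotated stable compaction: the letter in the cell `i` goes to the place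
`(off x + rkP x i) % 2 ^ t`. Output `(p, 0)`: is there a letter with the place `p`? Output `(p, 1)`: is
there a marked letter with the place `p`? -/
def GG (t : ℕ) (x : In t → Bool) (y : Ou t) : Bool :=
  decide (∃ i : Fin (2 ^ t), x (Sum.inr (i, 0)) = true ∧ x (Sum.inr (i, y.2)) = true ∧
    (off x + rkP x i) % 2 ^ t = y.1)

/-- Independent instances, indexed by `α`. -/
def BG (α : Type) (t : ℕ) (x : α × In t → Bool) (y : α × Ou t) : Bool :=
  GG t (fun z => x (y.1, z)) y.2

/-- There is a circuit with at most `S` gates for `f` on words of length `n`: the letter `i` is `2` if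
`P i` is false, and otherwise it is `1` if `Q i` is true and `0` if `Q i` is false. -/
def FF (n S : ℕ) : Prop :=
  ∃ F : (Fin n × Fin 2 → Bool) → Fin n × Fin 2 → Bool, Cx F S ∧
    ∀ (P Q : Fin n → Bool) (y : Fin n × Fin 2 → Bool),
      (∀ i, y (i, 0) = (P i && Q i) ∧ y (i, 1) = !P i) → ∀ j : Fin n,
        F y (j, 0) = cmp Fin.val P Q j ∧
        F y (j, 1) = decide ((univ.filter fun i => P i = true).card ≤ j)

/-- The places of the word of the batch: block `k` has the length `4 * 2 ^ b`, and consists of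
`2 ^ b`, `2 ^ b` and `2 ^ (b + 1)` cells. -/
def wpos (b : ℕ) {K : ℕ} (p : Fin K × (Fin (2 ^ b) ⊕ (Fin (2 ^ b) ⊕ Fin (2 ^ (b + 1))))) : ℕ :=
  p.1 * 2 ^ (b + 2) + Sum.elim (fun i : Fin (2 ^ b) => (i : ℕ))
    (Sum.elim (fun i : Fin (2 ^ b) => 2 ^ b + i) fun i : Fin (2 ^ (b + 1)) => 2 * 2 ^ b + i) p.2

/-- The letters `≠ 2` of the word of the batch. -/
def wP (b : ℕ) {K : ℕ} (x : Fin K × In b → Bool)
    (p : Fin K × (Fin (2 ^ b) ⊕ (Fin (2 ^ b) ⊕ Fin (2 ^ (b + 1))))) : Bool :=
  Sum.elim (fun i : Fin (2 ^ b) => decide ((i : ℕ) < off fun z => x (p.1, z)))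
    (Sum.elim (fun i : Fin (2 ^ b) => x (p.1, Sum.inr (i, 0)))
      fun i : Fin (2 ^ (b + 1)) => decide ((i : ℕ) + (off fun z => x (p.1, z)) +
        (cn fun z => x (p.1, z)) < 2 * 2 ^ b)) p.2

/-- The letters `1` of the word of the batch. -/
def wQ (b : ℕ) {K : ℕ} (e : Fin 2) (x : Fin K × In b → Bool)
    (p : Fin K × (Fin (2 ^ b) ⊕ (Fin (2 ^ b) ⊕ Fin (2 ^ (b + 1))))) : Bool :=
  Sum.elim (fun _ : Fin (2 ^ b) => false)
    (Sum.elim (fun i : Fin (2 ^ b) => x (p.1, Sum.inr (i, e))) fun _ : Fin (2 ^ (b + 1)) => false) p.2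

/-- The cell in the row `q`, column `c`. -/
def cell {t b : ℕ} (q : Fin (2 ^ t)) (c : Fin (2 ^ b)) : Fin (2 ^ (t + b)) :=
  ⟨q * 2 ^ b + c, by
    rw [pow_add]
    calc (q : ℕ) * 2 ^ b + c < q * 2 ^ b + 2 ^ b := Nat.add_lt_add_left c.2 _
      _ = (q + 1) * 2 ^ b := (Nat.succ_mul _ _).symm
      _ ≤ 2 ^ t * 2 ^ b := Nat.mul_le_mul_right _ q.2⟩

/-- The instance of the row `q`. -/
def row {t b : ℕ} (x : In (t + b) → Bool) (q : Fin (2 ^ t)) : In b → Bool :=
  Sum.elim (fun τ => (off x + rkP x (q * 2 ^ b)).testBit τ) fun p => x (Sum.inr (cell q p.1, p.2))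

/-- The offset of the column `c` (not reduced). -/
def cof {t b : ℕ} (x : In (t + b) → Bool) (c : ℕ) : ℕ :=
  off x / 2 ^ b + if c < off x % 2 ^ b then 1 else 0

/-- The instance of the column `c`. -/
def col {t b : ℕ} (x : In (t + b) → Bool) (c : Fin (2 ^ b)) : In t → Bool :=
  Sum.elim (fun τ => (cof x c).testBit τ) fun p => GG b (row x p.1) (c, p.2)

/-- The format of the frozen statement: a circuit with `s` gates computes `f` on words of length `n`. -/
def Sol (n s : ℕ) : Prop :=
  ∃ (op : Fin s → Bool → Bool → Bool) (left right : Fin s → (Fin n × Fin 2) ⊕ Fin s)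
    (out : Fin n → Fin 2 → (Fin n × Fin 2) ⊕ Fin s),
    (∀ g h : Fin s, left g = Sum.inr h → h < g) ∧ (∀ g h : Fin s, right g = Sum.inr h → h < g) ∧
    ∀ (x : Fin n → Fin 3) (v : (Fin n × Fin 2) ⊕ Fin s → Bool),
      (∀ i : Fin n, v (Sum.inl (i, 0)) = decide (x i = 1) ∧
        v (Sum.inl (i, 1)) = decide (x i = 2)) →
      (∀ g : Fin s, v (Sum.inr g) = op g (v (left g)) (v (right g))) →
      ∀ j : Fin n,
        v (out j 0) = decide ((((List.ofFn x).filter (fun a => a != (2 : Fin 3))) ++
          ((List.ofFn x).filter (fun a => a == (2 : Fin 3)))).getD j.val 0 = 1) ∧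
        v (out j 1) = decide ((((List.ofFn x).filter (fun a => a != (2 : Fin 3))) ++
          ((List.ofFn x).filter (fun a => a == (2 : Fin 3)))).getD j.val 0 = 2)

/-! ## Ranks -/

section ranks

variable {α β : Type} [Fintype α] [Fintype β]

theorem rk_mono (pos : α → ℕ) (P : α → Bool) {q q' : ℕ} (h : q ≤ q') :
    rk pos P q ≤ rk pos P q' :=
  card_le_card fun a ha => by
    rw [mem_filter] at ha ⊢
    exact ⟨ha.1, by omega, ha.2.2⟩

theorem rk_le_card (pos : α → ℕ) (P : α → Bool) (q : ℕ) :
    rk pos P q ≤ (univ.filter fun a => P a = true).card :=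
  card_le_card fun a ha => by
    rw [mem_filter] at ha ⊢
    exact ⟨ha.1, ha.2.2⟩

theorem rk_eq_card (pos : α → ℕ) (P : α → Bool) {q : ℕ} (h : ∀ a, pos a < q) :
    rk pos P q = (univ.filter fun a => P a = true).card := by
  unfold rk
  congr 1
  ext a
  simp [h a]

theorem rk_zero (pos : α → ℕ) (P : α → Bool) : rk pos P 0 = 0 := by
  simp [rk]

/-- Two different cells with `P` have different ranks. -/
theorem rk_inj (pos : α → ℕ) (P : α → Bool) {a a' : α} (ha : P a = true) (ha' : P a' = true)
    (h : rk pos P (pos a) = rk pos P (pos a')) : pos a = pos a' := by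
  by_contra hne
  rcases Nat.lt_or_gt_of_ne hne with h1 | h1
  · have h2 : rk pos P (pos a) < rk pos P (pos a') := by
      refine card_lt_card ((ssubset_iff_of_subset fun z hz => ?_).2 ⟨a, ?_, ?_⟩)
      · rw [mem_filter] at hz ⊢
        exact ⟨hz.1, by omega, hz.2.2⟩
      · rw [mem_filter]
        exact ⟨mem_univ a, h1, ha⟩
      · rw [mem_filter]
        rintro ⟨_, h3, _⟩
        omega
    omega
  · have h2 : rk pos P (pos a') < rk pos P (pos a) := by
      refine card_lt_card ((ssubset_iff_of_subset fun z hz => ?_).2 ⟨a', ?_, ?_⟩)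
      · rw [mem_filter] at hz ⊢
        exact ⟨hz.1, by omega, hz.2.2⟩
      · rw [mem_filter]
        exact ⟨mem_univ a', h1, ha'⟩
      · rw [mem_filter]
        rintro ⟨_, h3, _⟩
        omega
    omega

theorem rk_lt_card (pos : α → ℕ) (P : α → Bool) {a : α} (ha : P a = true) :
    rk pos P (pos a) < (univ.filter fun a => P a = true).card := by
  refine card_lt_card ((ssubset_iff_of_subset fun z hz => ?_).2 ⟨a, ?_, ?_⟩)
  · rw [mem_filter] at hz ⊢
    exact ⟨hz.1, hz.2.2⟩
  · rw [mem_filter]
    exact ⟨mem_univ a, ha⟩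
  · rw [mem_filter]
    rintro ⟨_, h3, _⟩
    omega

/-- Every rank occurs. -/
theorem exists_rk (pos : α → ℕ) (hpos : Function.Injective pos) (P : α → Bool) {j : ℕ}
    (hj : j < (univ.filter fun a => P a = true).card) :
    ∃ a, P a = true ∧ rk pos P (pos a) = j := by
  classical
  have hmaps : ∀ a ∈ univ.filter (fun a => P a = true),
      rk pos P (pos a) ∈ range (univ.filter fun a => P a = true).card := fun a ha => by
    rw [mem_filter] at ha
    rw [mem_range]
    exact rk_lt_card pos P ha.2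
  have hinj : Set.InjOn (fun a => rk pos P (pos a))
      (univ.filter (fun a => P a = true) : Finset α) := fun a ha a' ha' h => by
    rw [mem_coe, mem_filter] at ha ha'
    exact hpos (rk_inj pos P ha.2 ha'.2 h)
  have hsurj := surj_on_of_inj_on_of_card_le (s := univ.filter fun a => P a = true)
    (t := range (univ.filter fun a => P a = true).card) (fun a _ => rk pos P (pos a))
    (fun a ha => hmaps a ha) (fun a a' ha ha' h => hinj (mem_coe.2 ha) (mem_coe.2 ha') h)
    (by rw [card_range]) j (mem_range.2 hj)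
  obtain ⟨a, ha, h⟩ := hsurj
  exact ⟨a, (mem_filter.1 ha).2, h.symm⟩

theorem rk_equiv (e : α ≃ β) (pa : α → ℕ) (pb : β → ℕ) (h : ∀ a, pb (e a) = pa a) (P : β → Bool)
    (q : ℕ) : rk pb P q = rk pa (fun a => P (e a)) q := by
  unfold rk
  symm
  refine card_bij (fun a _ => e a) (fun a ha => ?_) (fun a _ a' _ haa => e.injective haa)
    fun b hb => ⟨e.symm b, ?_, e.apply_symm_apply b⟩
  · rw [mem_filter] at ha ⊢
    rw [h a]
    exact ⟨mem_univ _, ha.2⟩
  · rw [mem_filter] at hb ⊢
    beta_reduce
    rw [← h, e.apply_symm_apply]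
    exact ⟨mem_univ _, hb.2⟩

theorem cmp_equiv (e : α ≃ β) (pa : α → ℕ) (pb : β → ℕ) (h : ∀ a, pb (e a) = pa a)
    (P Q : β → Bool) (j : ℕ) :
    cmp pb P Q j = cmp pa (fun a => P (e a)) (fun a => Q (e a)) j := by
  unfold cmp
  rw [decide_eq_decide]
  constructor
  · rintro ⟨b, h1, h2, h3⟩
    refine ⟨e.symm b, ?_, ?_, ?_⟩
    · beta_reduce
      rw [e.apply_symm_apply]
      exact h1
    · beta_reduce
      rw [e.apply_symm_apply]
      exact h2
    · rw [← rk_equiv e pa pb h P, ← h (e.symm b), e.apply_symm_apply]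
      exact h3
  · rintro ⟨a, h1, h2, h3⟩
    refine ⟨e a, h1, h2, ?_⟩
    rw [rk_equiv e pa pb h P, h a]
    exact h3

/-- Ranks in a word which is divided into blocks of the length `L`. -/
theorem rk_lex {K L : ℕ} (pos : β → ℕ) (hpos : ∀ z, pos z < L) (P : Fin K × β → Bool)
    (k : Fin K) {q : ℕ} (hq : q ≤ L) :
    rk (fun p : Fin K × β => p.1 * L + pos p.2) P (k * L + q) =
      (∑ k' ∈ univ.filter (fun k' : Fin K => k' < k),
        (univ.filter fun z => P (k', z) = true).card) + rk pos (fun z => P (k, z)) q := by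
  classical
  have h0 : rk (fun p : Fin K × β => p.1 * L + pos p.2) P (k * L + q) =
      ∑ k' : Fin K, (univ.filter fun z => (k' : ℕ) * L + pos z < k * L + q ∧
        P (k', z) = true).card := by
    unfold rk
    rw [card_filter, Fintype.sum_prod_type]
    refine sum_congr rfl fun k' _ => ?_
    rw [card_filter]
  have h1 : ∀ k' : Fin K, (univ.filter fun z => (k' : ℕ) * L + pos z < k * L + q ∧
      P (k', z) = true).card =
      (if k' < k then (univ.filter fun z => P (k', z) = true).card else 0) +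
        if k' = k then rk pos (fun z => P (k, z)) q else 0 := by
    intro k'
    rcases lt_trichotomy k' k with h3 | h3 | h3
    · rw [if_pos h3, if_neg (ne_of_lt h3), Nat.add_zero]
      congr 1
      ext z
      rw [mem_filter, mem_filter]
      have h4 : ((k' : ℕ) + 1) * L ≤ k * L := Nat.mul_le_mul_right L h3
      rw [Nat.succ_mul] at h4
      have := hpos z
      constructor
      · rintro ⟨h5, -, h6⟩
        exact ⟨h5, h6⟩
      · rintro ⟨h5, h6⟩
        exact ⟨h5, by omega, h6⟩
    · subst h3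
      rw [if_neg (lt_irrefl _), if_pos rfl, Nat.zero_add]
      unfold rk
      congr 1
      ext z
      rw [mem_filter, mem_filter]
      constructor
      · rintro ⟨h5, h6, h7⟩
        exact ⟨h5, by omega, h7⟩
      · rintro ⟨h5, h6, h7⟩
        exact ⟨h5, by omega, h7⟩
    · rw [if_neg (not_lt.2 h3.le), if_neg (ne_of_gt h3), Nat.add_zero, card_eq_zero,
        filter_eq_empty_iff]
      intro z _ h5
      have h4 : ((k : ℕ) + 1) * L ≤ k' * L := Nat.mul_le_mul_right L h3
      rw [Nat.succ_mul] at h4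
      omega
  rw [h0, sum_congr rfl fun k' _ => h1 k', sum_add_distrib, sum_ite_eq', if_pos (mem_univ k),
    sum_filter]

end ranks

theorem rk_succ {n : ℕ} (P : Fin n → Bool) (i : Fin n) :
    rk Fin.val P (i + 1) = rk Fin.val P i + if P i = true then 1 else 0 := by
  classical
  unfold rk
  have h1 : (univ.filter fun a : Fin n => (a : ℕ) < i + 1 ∧ P a = true) =
      (univ.filter fun a : Fin n => (a : ℕ) < i ∧ P a = true) ∪
        if P i = true then {i} else ∅ := by
    ext a
    simp only [mem_filter, mem_univ, true_and, mem_union]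
    constructor
    · rintro ⟨h1, h2⟩
      rcases Nat.lt_or_ge (a : ℕ) i with h3 | h3
      · exact Or.inl ⟨h3, h2⟩
      · have h4 : a = i := Fin.ext (by omega)
        subst h4
        rw [if_pos h2]
        exact Or.inr (mem_singleton_self a)
    · rintro (⟨h1, h2⟩ | h1)
      · exact ⟨by omega, h2⟩
      · by_cases hP : P i = true
        · rw [if_pos hP, mem_singleton] at h1
          subst h1
          exact ⟨by omega, hP⟩
        · rw [if_neg hP] at h1
          exact absurd h1 (notMem_empty a)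
  rw [h1, card_union_of_disjoint]
  · split_ifs <;> simp
  · split_ifs
    · rw [disjoint_singleton_right, mem_filter]
      rintro ⟨_, h, _⟩
      omega
    · exact disjoint_empty_right _

theorem num_lt {k : ℕ} (u : Fin k → Bool) : num u < 2 ^ k := by
  unfold num
  calc ∑ i : Fin k, (if u i = true then 2 ^ (i : ℕ) else 0) ≤ ∑ i : Fin k, 2 ^ (i : ℕ) :=
        sum_le_sum fun i _ => by split_ifs <;> simp
    _ = ∑ i ∈ range k, 2 ^ i := Fin.sum_univ_eq_sum_range (fun i => 2 ^ i) k
    _ < 2 ^ k := by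
        rw [Nat.geomSum_eq le_rfl]
        have := Nat.one_le_two_pow (n := k)
        omega

theorem off_lt {t : ℕ} (x : In t → Bool) : off x < 2 ^ t := num_lt _

theorem cn_le {t : ℕ} (x : In t → Bool) : cn x ≤ 2 ^ t := by
  unfold cn
  refine (card_le_univ _).trans (le_of_eq ?_)
  rw [Fintype.card_fin]

/-- Every cell is in one row and one column. -/
theorem exists_cell {t b : ℕ} (i : Fin (2 ^ (t + b))) :
    ∃ (q : Fin (2 ^ t)) (c : Fin (2 ^ b)), i = cell q c := by
  have hi : (i : ℕ) < 2 ^ t * 2 ^ b := by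
    rw [← pow_add]
    exact i.2
  refine ⟨⟨i / 2 ^ b, Nat.div_lt_of_lt_mul (by rwa [Nat.mul_comm] at hi)⟩,
    ⟨i % 2 ^ b, Nat.mod_lt _ (Nat.two_pow_pos b)⟩, Fin.ext ?_⟩
  change (i : ℕ) = i / 2 ^ b * 2 ^ b + i % 2 ^ b
  exact (Nat.div_add_mod' _ _).symm

/-! ## Digits -/

theorem num_succ {k : ℕ} (u : Fin (k + 1) → Bool) :
    num u = (if u 0 = true then 1 else 0) + 2 * num fun i : Fin k => u i.succ := by
  unfold num
  rw [Fin.sum_univ_succ, mul_sum]
  congr 1
  refine sum_congr rfl fun i _ => ?_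
  rw [Fin.val_succ, pow_succ]
  split_ifs <;> ring

/-- The digits of `num u` are those of `u`. -/
theorem testBit_num : ∀ {k : ℕ} (u : Fin k → Bool) (i : ℕ),
    (num u).testBit i = if h : i < k then u ⟨i, h⟩ else false
  | 0, u, i => by simp [num]
  | k + 1, u, i => by
    rw [num_succ]
    cases i with
    | zero =>
      rw [dif_pos (Nat.succ_pos k), Nat.testBit_zero]
      have h1 : ((if u 0 = true then 1 else 0) + 2 * num fun i : Fin k => u i.succ) % 2 =
          if u 0 = true then 1 else 0 := by split_ifs <;> omega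
      rw [h1]
      change decide _ = u 0
      cases u 0 <;> simp
    | succ i =>
      rw [Nat.testBit_succ]
      have h1 : ((if u 0 = true then 1 else 0) + 2 * num fun i : Fin k => u i.succ) / 2 =
          num fun i : Fin k => u i.succ := by split_ifs <;> omega
      rw [h1, testBit_num]
      by_cases h : i < k
      · rw [dif_pos h, dif_pos (Nat.succ_lt_succ h)]
        rfl
      · rw [dif_neg h, dif_neg (by omega)]

theorem testBit_num_fin {k : ℕ} (u : Fin k → Bool) (i : Fin k) : (num u).testBit i = u i := by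
  rw [testBit_num, dif_pos i.2]

theorem num_testBit_mod (k m : ℕ) : num (fun t : Fin k => m.testBit t) = m % 2 ^ k := by
  refine Nat.eq_of_testBit_eq fun i => ?_
  rw [testBit_num, Nat.testBit_mod_two_pow]
  by_cases h : i < k <;> simp [h]

theorem num_testBit {k m : ℕ} (h : m < 2 ^ k) : num (fun t : Fin k => m.testBit t) = m := by
  rw [num_testBit_mod, Nat.mod_eq_of_lt h]

theorem testBit_congr {a b k t : ℕ} (ht : t < k) (h : a % 2 ^ k = b % 2 ^ k) :
    a.testBit t = b.testBit t := by
  have h1 := congrArg (fun m => Nat.testBit m t) h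
  simp only [Nat.testBit_mod_two_pow, ht, decide_true, Bool.true_and] at h1
  exact h1

/-- The last digits of the offset. -/
theorem off_mod {t b : ℕ} (x : In (t + b) → Bool) :
    num (fun τ : Fin b => x (Sum.inl ⟨τ, by omega⟩)) = off x % 2 ^ b := by
  refine Nat.eq_of_testBit_eq fun i => ?_
  rw [testBit_num, Nat.testBit_mod_two_pow, off, testBit_num]
  by_cases h : i < b
  · rw [dif_pos h, dif_pos (by omega)]
    simp [h]
  · simp [h]

/-- The first digits of the offset. -/
theorem off_div {t b : ℕ} (x : In (t + b) → Bool) :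
    num (fun τ : Fin t => x (Sum.inl ⟨b + τ, by omega⟩)) = off x / 2 ^ b := by
  refine Nat.eq_of_testBit_eq fun i => ?_
  rw [testBit_num, Nat.testBit_div_two_pow, off, testBit_num]
  by_cases h : i < t
  · rw [dif_pos h, dif_pos (by omega)]
    exact congrArg (fun z => x (Sum.inl z)) (Fin.ext (by simp [Nat.add_comm]))
  · rw [dif_neg h, dif_neg (by omega)]

/-- The offset of the row `q` is the number of its first letter modulo `2 ^ b`. -/
theorem off_row {t b : ℕ} (x : In (t + b) → Bool) (q : Fin (2 ^ t)) :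
    off (row x q) = (off x + rkP x (q * 2 ^ b)) % 2 ^ b := num_testBit_mod _ _

/-- The offset of the column `c`. -/
theorem off_col {t b : ℕ} (x : In (t + b) → Bool) (c : Fin (2 ^ b)) :
    off (col x c) = cof x c % 2 ^ t := num_testBit_mod _ _

end Pool.Agent.Lin
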