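import Pool.Agent.Lib.MP_76b24b_lcS.Spec

/-!
# MP_76b24b_lc, package S: the batch (`S_Bat`)
-/

set_option autoImplicit false

namespace Pool.Agent.Lin

open Finset

/-- The cells of one block. -/
private abbrev BatZ (b : ℕ) : Type := Fin (2 ^ b) ⊕ (Fin (2 ^ b) ⊕ Fin (2 ^ (b + 1)))

/-- The bits of the inputs and the thermometers. -/
private abbrev BatU (a b : ℕ) : Type :=
  (Fin (2 ^ a) × In b) ⊕ (Fin (2 ^ a) × (Fin (2 ^ b) ⊕ Fin (2 ^ (b + 1))))

/-- The place of a cell in its block. -/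
private def batW (b : ℕ) (z : BatZ b) : ℕ :=
  Sum.elim (fun i : Fin (2 ^ b) => (i : ℕ))
    (Sum.elim (fun i : Fin (2 ^ b) => 2 ^ b + i) fun i : Fin (2 ^ (b + 1)) => 2 * 2 ^ b + i) z

private theorem batW_lt (b : ℕ) (z : BatZ b) : batW b z < 2 ^ (b + 2) := by
  have h1 : 2 ^ (b + 2) = 4 * 2 ^ b := by ring
  have h2 : 2 ^ (b + 1) = 2 * 2 ^ b := by ring
  rcases z with i | i | i
  · change (i : ℕ) < _
    have := i.2
    omega
  · change 2 ^ b + (i : ℕ) < _
    have := i.2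
    omega
  · change 2 * 2 ^ b + (i : ℕ) < _
    have := i.2
    omega

private theorem batW_inj (b : ℕ) (z z' : BatZ b) (h : batW b z = batW b z') : z = z' := by
  rcases z with i | i | i
  · have hi := i.2
    rcases z' with j | j | j
    · have h3 : (i : ℕ) = j := h
      rw [Fin.ext h3]
    · have h3 : (i : ℕ) = 2 ^ b + j := h
      omega
    · have h3 : (i : ℕ) = 2 * 2 ^ b + j := h
      omega
  · have hi := i.2
    rcases z' with j | j | j
    · have hj := j.2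
      have h3 : 2 ^ b + (i : ℕ) = j := h
      omega
    · have h3 : 2 ^ b + (i : ℕ) = 2 ^ b + j := h
      rw [Fin.ext (Nat.add_left_cancel h3)]
    · have h3 : 2 ^ b + (i : ℕ) = 2 * 2 ^ b + j := h
      omega
  · rcases z' with j | j | j
    · have hj := j.2
      have h3 : 2 * 2 ^ b + (i : ℕ) = j := h
      omega
    · have hj := j.2
      have h3 : 2 * 2 ^ b + (i : ℕ) = 2 ^ b + j := h
      omega
    · have h3 : 2 * 2 ^ b + (i : ℕ) = 2 * 2 ^ b + j := h
      rw [Fin.ext (Nat.add_left_cancel h3)]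

private theorem bat_lt (a b : ℕ) (p : Fin (2 ^ a) × BatZ b) : wpos b p < 2 ^ (a + b + 2) := by
  have h1 := batW_lt b p.2
  have h2 : wpos b p = p.1 * 2 ^ (b + 2) + batW b p.2 := rfl
  have h3 : ((p.1 : ℕ) + 1) * 2 ^ (b + 2) ≤ 2 ^ a * 2 ^ (b + 2) := Nat.mul_le_mul_right _ p.1.2
  rw [← pow_add, Nat.succ_mul] at h3
  rw [h2, Nat.add_assoc a b 2]
  exact lt_of_lt_of_le (Nat.add_lt_add_left h1 _) h3

private theorem bat_inj (a b : ℕ) : Function.Injective fun p : Fin (2 ^ a) × BatZ b =>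
    (⟨wpos b p, bat_lt a b p⟩ : Fin (2 ^ (a + b + 2))) := by
  rintro ⟨k, z⟩ ⟨k', z'⟩ h
  have h1 : (k : ℕ) * 2 ^ (b + 2) + batW b z = k' * 2 ^ (b + 2) + batW b z' :=
    congrArg Fin.val h
  have hz := batW_lt b z
  have hz' := batW_lt b z'
  have hk : (k : ℕ) = k' := by
    rcases Nat.lt_trichotomy (k : ℕ) k' with h3 | h3 | h3
    · have h4 : ((k : ℕ) + 1) * 2 ^ (b + 2) ≤ k' * 2 ^ (b + 2) := Nat.mul_le_mul_right _ h3
      rw [Nat.succ_mul] at h4
      generalize (k : ℕ) * 2 ^ (b + 2) = u at h1 h4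
      generalize (k' : ℕ) * 2 ^ (b + 2) = v at h1 h4
      omega
    · exact h3
    · have h4 : ((k' : ℕ) + 1) * 2 ^ (b + 2) ≤ k * 2 ^ (b + 2) := Nat.mul_le_mul_right _ h3
      rw [Nat.succ_mul] at h4
      generalize (k : ℕ) * 2 ^ (b + 2) = u at h1 h4
      generalize (k' : ℕ) * 2 ^ (b + 2) = v at h1 h4
      omega
  have h2 : batW b z = batW b z' := by
    rw [hk] at h1
    exact Nat.add_left_cancel h1
  rw [Fin.ext hk, batW_inj b z z' h2]

private theorem bat_equiv (a b : ℕ) : ∃ ε : Fin (2 ^ a) × BatZ b ≃ Fin (2 ^ (a + b + 2)),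
    ∀ p, ((ε p : Fin (2 ^ (a + b + 2))) : ℕ) = wpos b p := by
  have h : Function.Bijective fun p : Fin (2 ^ a) × BatZ b =>
      (⟨wpos b p, bat_lt a b p⟩ : Fin (2 ^ (a + b + 2))) := by
    rw [Fintype.bijective_iff_injective_and_card]
    refine ⟨bat_inj a b, ?_⟩
    rw [Fintype.card_prod, Fintype.card_sum, Fintype.card_sum, Fintype.card_fin,
      Fintype.card_fin, Fintype.card_fin, Fintype.card_fin]
    ring
  exact ⟨Equiv.ofBijective _ h, fun p => rfl⟩

private theorem bat_out (a b : ℕ) (k : Fin (2 ^ a)) (q : ℕ) (hq : q < 2 * 2 ^ b) :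
    (k : ℕ) * (2 * 2 ^ b) + q < 2 ^ (a + b + 2) := by
  have h3 : ((k : ℕ) + 1) * (2 * 2 ^ b) ≤ 2 ^ a * (2 * 2 ^ b) := Nat.mul_le_mul_right _ k.2
  have h4 : 2 ^ a * (2 * 2 ^ b) ≤ 2 ^ (a + b + 2) := by
    have h5 : 2 ^ (a + b + 2) = 2 * (2 ^ a * (2 * 2 ^ b)) := by ring
    rw [h5]
    exact Nat.le_mul_of_pos_left _ two_pos
  rw [Nat.succ_mul] at h3
  exact lt_of_lt_of_le (Nat.add_lt_add_left hq _) (h3.trans h4)

section

variable {a b : ℕ}

/-- The first (`e = 0`) and the second input of the gates of a cell. -/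
private def batA (p : Fin (2 ^ a) × BatZ b) (e : Fin 2) : BatU a b :=
  Sum.elim (fun i => Sum.inr (p.1, Sum.inl i))
    (Sum.elim (fun i => Sum.inl (p.1, Sum.inr (i, e))) fun i => Sum.inr (p.1, Sum.inr i)) p.2

/-- Is the cell in the middle part of its block? -/
private def batM (p : Fin (2 ^ a) × BatZ b) : Bool :=
  Sum.elim (fun _ => false) (Sum.elim (fun _ => true) fun _ => false) p.2

/-- The thermometers. -/
private def batT (x : Fin (2 ^ a) × In b → Bool)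
    (p : Fin (2 ^ a) × (Fin (2 ^ b) ⊕ Fin (2 ^ (b + 1)))) : Bool :=
  Sum.elim (fun i : Fin (2 ^ b) => decide ((i : ℕ) < off fun z => x (p.1, z)))
    (fun i : Fin (2 ^ (b + 1)) => decide ((i : ℕ) + (off fun z => x (p.1, z)) +
      (cn fun z => x (p.1, z)) < 2 * 2 ^ b)) p.2

private theorem bat_P (x : Fin (2 ^ a) × In b → Bool) (p : Fin (2 ^ a) × BatZ b) :
    Sum.elim x (batT x) (batA p 0) = wP b x p := by
  obtain ⟨k, i | i | i⟩ := p <;> rfl

private theorem bat_Q (x : Fin (2 ^ a) × In b → Bool) (e : Fin 2) (p : Fin (2 ^ a) × BatZ b) :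
    (batM p && Sum.elim x (batT x) (batA p 0) && Sum.elim x (batT x) (batA p e)) =
      (wP b x p && wQ b e x p) := by
  rw [bat_P]
  obtain ⟨k, i | i | i⟩ := p
  · change (false && _ && _) = (_ && false)
    rw [Bool.false_and, Bool.false_and, Bool.and_false]
  · change (true && _ && _) = _
    rw [Bool.true_and]
    rfl
  · change (false && _ && _) = (_ && false)
    rw [Bool.false_and, Bool.false_and, Bool.and_false]

/-- The input of the copy `e`. -/
private def batL (ε : Fin (2 ^ a) × BatZ b ≃ Fin (2 ^ (a + b + 2))) (e : Fin 2)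
    (u : BatU a b → Bool) (j : Fin (2 ^ (a + b + 2)) × Fin 2) : Bool :=
  if j.2 = 0 then (batM (ε.symm j.1) && u (batA (ε.symm j.1) 0) && u (batA (ε.symm j.1) e))
  else !(u (batA (ε.symm j.1) 0))

private theorem bat_cx (ε : Fin (2 ^ a) × BatZ b ≃ Fin (2 ^ (a + b + 2))) (e : Fin 2) :
    Cx (batL ε e) (8 * 2 ^ (a + b)) := by
  have h := Cx.layer (fun (j : Fin (2 ^ (a + b + 2)) × Fin 2) (p q : Bool) =>
    if j.2 = 0 then (batM (ε.symm j.1) && p && q) else !p) (fun j => batA (ε.symm j.1) 0)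
    (fun j => batA (ε.symm j.1) e)
  refine (h.mono ?_).congr fun u j => rfl
  rw [Fintype.card_prod, Fintype.card_fin, Fintype.card_fin]
  apply le_of_eq
  ring

/-- The value of the copy `e` at the place `k * (2 n) + q`. -/
private theorem bat_val (h2 : S_Wrd) {F : (Fin (2 ^ (a + b + 2)) × Fin 2 → Bool) →
      Fin (2 ^ (a + b + 2)) × Fin 2 → Bool}
    (hFF : ∀ (P Q : Fin (2 ^ (a + b + 2)) → Bool) (y : Fin (2 ^ (a + b + 2)) × Fin 2 → Bool),
      (∀ i, y (i, 0) = (P i && Q i) ∧ y (i, 1) = !P i) → ∀ j : Fin (2 ^ (a + b + 2)),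
        F y (j, 0) = cmp Fin.val P Q j ∧
        F y (j, 1) = decide ((univ.filter fun i => P i = true).card ≤ j))
    (ε : Fin (2 ^ a) × BatZ b ≃ Fin (2 ^ (a + b + 2)))
    (hε : ∀ p, ((ε p : Fin (2 ^ (a + b + 2))) : ℕ) = wpos b p)
    (x : Fin (2 ^ a) × In b → Bool) (k : Fin (2 ^ a)) (e : Fin 2) (q : ℕ)
    (hq : q < 2 * 2 ^ b) :
    F (batL ε e (Sum.elim x (batT x))) (⟨k * (2 * 2 ^ b) + q, bat_out a b k q hq⟩, 0) =
      decide (∃ i : Fin (2 ^ b), x (k, Sum.inr (i, 0)) = true ∧ x (k, Sum.inr (i, e)) = true ∧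
        (off fun z => x (k, z)) + (rkP (fun z => x (k, z)) i) = q) := by
  have h3 := (hFF (fun j => wP b x (ε.symm j)) (fun j => wQ b e x (ε.symm j))
    (batL ε e (Sum.elim x (batT x))) (fun i => ⟨?_, ?_⟩)
    ⟨k * (2 * 2 ^ b) + q, bat_out a b k q hq⟩).1
  · rw [h3, cmp_equiv ε (wpos b) Fin.val hε]
    simp only [Equiv.symm_apply_apply]
    exact h2 (2 ^ a) b x k e q hq
  · exact bat_Q x e (ε.symm i)
  · change (!_) = _
    rw [bat_P]

end

theorem tBat (h1 : S_Trm) (h2 : S_Wrd) : S_Bat := by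
  obtain ⟨C, hC⟩ := h1
  refine ⟨C + 18, fun a b S hF => ?_⟩
  obtain ⟨F, hFS, hFF⟩ := hF
  obtain ⟨ε, hε⟩ := bat_equiv a b
  have hT : Cx (batT (a := a) (b := b)) (2 ^ a * (C * 2 ^ b)) := by
    have h := (hC b).blocks (α := Fin (2 ^ a))
    rw [Fintype.card_fin] at h
    exact h.congr fun x p => rfl
  have hG : Cx (fun (u : BatU a b → Bool) (j : Fin 2 × (Fin (2 ^ (a + b + 2)) × Fin 2)) =>
      F (batL ε j.1 u) j.2) (2 * (8 * 2 ^ (a + b) + S)) := by
    have h := Cx.fam (fun (e : Fin 2) (u : BatU a b → Bool) => F (batL ε e u))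
      (fun _ => 8 * 2 ^ (a + b) + S) (fun e => (bat_cx ε e).comp hFS)
    rw [Finset.sum_const, Finset.card_univ, Fintype.card_fin, smul_eq_mul] at h
    exact h
  have b1 : ∀ y : Fin (2 ^ a) × Ou b, (y.2.1 : ℕ) < 2 * 2 ^ b := fun y => by
    have := y.2.1.2
    omega
  have b2 : ∀ y : Fin (2 ^ a) × Ou b, 2 ^ b + (y.2.1 : ℕ) < 2 * 2 ^ b := fun y => by
    have := y.2.1.2
    omega
  have hO := Cx.layer (fun (_ : Fin (2 ^ a) × Ou b) (p q : Bool) => p || q)
    (fun y => ((y.2.2, (⟨y.1 * (2 * 2 ^ b) + y.2.1, bat_out a b y.1 _ (b1 y)⟩, 0)) :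
      Fin 2 × (Fin (2 ^ (a + b + 2)) × Fin 2)))
    (fun y => ((y.2.2, (⟨y.1 * (2 * 2 ^ b) + (2 ^ b + y.2.1), bat_out a b y.1 _ (b2 y)⟩, 0)) :
      Fin 2 × (Fin (2 ^ (a + b + 2)) × Fin 2)))
  refine ((hT.keep.comp (hG.comp hO)).mono ?_).congr fun x y => ?_
  · rw [Fintype.card_prod, Fintype.card_prod, Fintype.card_fin, Fintype.card_fin,
      Fintype.card_fin]
    apply le_of_eq
    ring
  · obtain ⟨k, p, e⟩ := y
    have e1 := bat_val h2 hFF ε hε x k e p (b1 (k, p, e))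
    have e2 := bat_val h2 hFF ε hε x k e (2 ^ b + p) (b2 (k, p, e))
    change (F (batL ε e (Sum.elim x (batT x))) (⟨k * (2 * 2 ^ b) + p, _⟩, 0) ||
      F (batL ε e (Sum.elim x (batT x))) (⟨k * (2 * 2 ^ b) + (2 ^ b + p), _⟩, 0)) =
      GG b (fun z => x (k, z)) (p, e)
    rw [e1, e2, ← Bool.decide_or]
    unfold GG
    rw [decide_eq_decide]
    have hp := p.2
    have ho := off_lt fun z => x (k, z)
    have hr : ∀ i : Fin (2 ^ b), x (k, Sum.inr (i, 0)) = true →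
        rkP (fun z => x (k, z)) i < 2 ^ b := fun i hi =>
      lt_of_lt_of_le (rk_lt_card Fin.val (fun i : Fin (2 ^ b) => x (k, Sum.inr (i, 0))) hi)
        (cn_le fun z => x (k, z))
    constructor
    · rintro (⟨i, h3, h4, h5⟩ | ⟨i, h3, h4, h5⟩)
      · exact ⟨i, h3, h4, by rw [h5]; exact Nat.mod_eq_of_lt hp⟩
      · refine ⟨i, h3, h4, ?_⟩
        rw [h5, Nat.add_mod_left]
        exact Nat.mod_eq_of_lt hp
    · rintro ⟨i, h3, h4, h5⟩
      have h6 := hr i h3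
      change (_ : ℕ) % 2 ^ b = (p : ℕ) at h5
      rcases Nat.lt_or_ge ((off fun z => x (k, z)) + rkP (fun z => x (k, z)) i) (2 ^ b)
        with h7 | h7
      · left
        refine ⟨i, h3, h4, ?_⟩
        rw [← h5, Nat.mod_eq_of_lt h7]
      · right
        refine ⟨i, h3, h4, ?_⟩
        rw [← h5, Nat.mod_eq_sub_mod h7, Nat.mod_eq_of_lt (by omega)]
        omega

end Pool.Agent.Lin
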