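import Pool.Agent.Lib.MP_76b24b_lcS.Spec

/-!
# MP_76b24b_lc, package S: the offsets of the columns
-/

set_option autoImplicit false

namespace Pool.Agent.Lin

open Finset

private theorem num_false {k : ℕ} : num (fun _ : Fin k => false) = 0 := by
  unfold num
  refine sum_eq_zero fun i _ => ?_
  rw [if_neg (by simp)]

private theorem num_single {t : ℕ} (ht : 0 < t) (w : Bool) :
    num (fun τ : Fin t => decide ((τ : ℕ) = 0) && w) = if w = true then 1 else 0 := by
  obtain ⟨k, rfl⟩ : ∃ k, t = k + 1 := ⟨t - 1, by omega⟩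
  rw [num_succ]
  have h1 : (fun i : Fin k => decide (((i.succ : Fin (k + 1)) : ℕ) = 0) && w) =
      fun _ : Fin k => false := by
    funext i
    rw [Fin.val_succ]
    simp
  rw [h1, num_false]
  simp

private theorem card_in (t b : ℕ) : Nonempty (In (t + b)) :=
  ⟨Sum.inr (⟨0, Nat.two_pow_pos _⟩, 0)⟩

private theorem cx_w (hT : S_Thr) (t b : ℕ) :
    Cx (fun (x : In (t + b) → Bool) (c : Fin (2 ^ b)) => decide ((c : ℕ) < off x % 2 ^ b))
      (4 * 2 ^ b + 1) := by
  have := card_in t b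
  rcases Nat.eq_zero_or_pos b with hb | hb
  · subst hb
    refine (((Cx.const (ι := In (t + 0)) false).out (fun _ : Fin (2 ^ 0) => ())).mono
      (by omega)).congr fun x c => ?_
    have h0 : off x % 2 ^ 0 = 0 := Nat.mod_one _
    symm
    rw [decide_eq_false_iff_not, h0]
    exact Nat.not_lt_zero _
  · refine (((hT b hb).inp (fun τ : Fin b =>
      (Sum.inl ⟨τ, by omega⟩ : In (t + b)))).mono (by omega)).congr fun x c => ?_
    rw [off_mod x]

private theorem cx_col (hA : S_Add) (t b : ℕ) (ht : 0 < t) (c : Fin (2 ^ b)) :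
    Cx (fun (y : In (t + b) ⊕ Fin (2 ^ b) → Bool) (i : Fin t) =>
      (off (fun z => y (Sum.inl z)) / 2 ^ b + if y (Sum.inr c) = true then 1 else 0).testBit i)
      (7 * t) := by
  let a1 : Fin t ⊕ Fin t → In (t + b) ⊕ Fin (2 ^ b) :=
    Sum.elim (fun τ : Fin t => Sum.inl (Sum.inl ⟨b + τ, by omega⟩)) (fun _ => Sum.inr c)
  let op1 : Fin t ⊕ Fin t → Bool → Bool → Bool :=
    Sum.elim (fun _ (u _ : Bool) => u) (fun (τ : Fin t) (_ v : Bool) => decide ((τ : ℕ) = 0) && v)
  have h1 : Cx (fun (y : In (t + b) ⊕ Fin (2 ^ b) → Bool) (j : Fin t ⊕ Fin t) =>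
      op1 j (y (a1 j)) (y (Sum.inr c))) (Fintype.card (Fin t ⊕ Fin t)) :=
    Cx.layer op1 a1 (fun _ => Sum.inr c)
  have h2 := h1.comp (hA t)
  rw [Fintype.card_sum, Fintype.card_fin] at h2
  refine (h2.mono (by omega)).congr fun y i => ?_
  have h3 := num_single ht (y (Sum.inr c))
  have h4 := off_div (t := t) (b := b) (fun z => y (Sum.inl z))
  rw [← h3, ← h4]
  rfl

theorem tCof (hA : S_Add) (hT : S_Thr) : S_Cof := by
  refine ⟨12, fun t b => ?_⟩
  rcases Nat.eq_zero_or_pos t with ht | ht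
  · subst ht
    exact ((Cx.proj (fun p : Fin (2 ^ b) × Fin 0 => (p.2.elim0 : In (0 + b)))).mono
      (Nat.zero_le _)).congr fun x p => p.2.elim0
  · have h1 := Cx.fam (fun (c : Fin (2 ^ b)) (y : In (t + b) ⊕ Fin (2 ^ b) → Bool) (i : Fin t) =>
      (off (fun z => y (Sum.inl z)) / 2 ^ b + if y (Sum.inr c) = true then 1 else 0).testBit i)
      (fun _ => 7 * t) (fun c => cx_col hA t b ht c)
    have h2 := (cx_w hT t b).ext h1
    rw [sum_const, card_univ, Fintype.card_fin, smul_eq_mul] at h2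
    have h3 : t < 2 ^ t := Nat.lt_two_pow_self
    have h4 : 1 ≤ 2 ^ b := Nat.one_le_two_pow
    have h5 : 1 ≤ 2 ^ t := Nat.one_le_two_pow
    refine (h2.mono ?_).congr fun x p => ?_
    · rw [pow_add]
      nlinarith [Nat.mul_le_mul_right (2 ^ b) h3.le, Nat.mul_le_mul_right (2 ^ b) h5]
    · simp only [Sum.elim_inl, Sum.elim_inr, decide_eq_true_eq]
      rfl

end Pool.Agent.Lin
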