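import Pool.Agent.Lib.MP_76b24b_lcS.Spec

/-!
# MP_76b24b_lc, package S: the dichotomy
-/

set_option autoImplicit false

namespace Pool.Agent.Lin

open Finset

private theorem Dch_sol0 {m : ℕ} (hm : 2 ≤ m) : ¬ Sol m 0 := by
  rintro ⟨op, left, right, out, -, -, h⟩
  have key : ∀ x : Fin m → Fin 3, ∃ v : (Fin m × Fin 2) ⊕ Fin 0 → Bool,
      (∀ i : Fin m, v (Sum.inl (i, 0)) = decide (x i = 1) ∧
        v (Sum.inl (i, 1)) = decide (x i = 2)) ∧
      v (out ⟨0, by omega⟩ 1) = decide ((((List.ofFn x).filter (fun a => a != (2 : Fin 3))) ++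
          ((List.ofFn x).filter (fun a => a == (2 : Fin 3)))).getD 0 0 = 2) := by
    intro x
    refine ⟨Sum.elim (fun p => if p.2 = 0 then decide (x p.1 = 1) else decide (x p.1 = 2))
      (fun g => g.elim0), fun i => ⟨by simp, by simp⟩, ?_⟩
    exact (h x _ (fun i => ⟨by simp, by simp⟩) (fun g => g.elim0) ⟨0, by omega⟩).2
  rcases ho : out ⟨0, by omega⟩ 1 with ⟨i, c⟩ | g
  · have hc : c = 0 ∨ c = 1 := by omega
    rcases hc with rfl | rfl
    · obtain ⟨v, hv, hv'⟩ := key (fun _ => 2)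
      rw [ho, (hv i).1] at hv'
      obtain ⟨k, rfl⟩ : ∃ k, m = k + 1 := ⟨m - 1, by omega⟩
      have h1 : List.ofFn (fun _ : Fin (k + 1) => (2 : Fin 3)) = List.replicate (k + 1) 2 := by
        rw [List.ofFn_const]
      rw [h1] at hv'
      have h2 : (List.replicate (k + 1) (2 : Fin 3)).filter (fun a => a != (2 : Fin 3)) = [] := by
        rw [List.filter_eq_nil_iff]
        intro a ha
        rw [List.eq_of_mem_replicate ha]
        decide
      have h3 : (List.replicate (k + 1) (2 : Fin 3)).filter (fun a => a == (2 : Fin 3)) =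
          List.replicate (k + 1) 2 := by
        rw [List.filter_eq_self]
        intro a ha
        rw [List.eq_of_mem_replicate ha]
        decide
      rw [h2, h3, List.nil_append, List.replicate_succ] at hv'
      simp at hv'
    · obtain ⟨v, hv, hv'⟩ := key (fun j => if j = i then 2 else 0)
      rw [ho, (hv i).2, if_pos rfl] at hv'
      have hv'' : (((List.ofFn fun j : Fin m => if j = i then (2 : Fin 3) else 0).filter
          (fun a => a != (2 : Fin 3))) ++
          ((List.ofFn fun j : Fin m => if j = i then (2 : Fin 3) else 0).filter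
          (fun a => a == (2 : Fin 3)))).getD 0 0 = 2 := by
        have h5 := hv'.symm
        rw [decide_eq_true rfl] at h5
        exact of_decide_eq_true h5
      have hmem : (0 : Fin 3) ∈ (List.ofFn fun j : Fin m => if j = i then (2 : Fin 3) else 0).filter
          (fun a => a != (2 : Fin 3)) := by
        rw [List.mem_filter]
        refine ⟨?_, by decide⟩
        rw [List.mem_ofFn]
        by_cases hi : i = ⟨0, by omega⟩
        · refine ⟨⟨1, by omega⟩, ?_⟩
          rw [if_neg]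
          rw [hi]
          intro h6
          have := congrArg Fin.val h6
          simp at this
        · exact ⟨⟨0, by omega⟩, if_neg fun h6 => hi h6.symm⟩
      rcases hL : (List.ofFn fun j : Fin m => if j = i then (2 : Fin 3) else 0).filter
          (fun a => a != (2 : Fin 3)) with _ | ⟨a, l⟩
      · rw [hL] at hmem
        exact absurd hmem List.not_mem_nil
      · rw [hL, List.cons_append, List.getD_cons_zero] at hv''
        have ha : a ∈ (List.ofFn fun j : Fin m => if j = i then (2 : Fin 3) else 0).filter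
            (fun a => a != (2 : Fin 3)) := by
          rw [hL]
          exact List.mem_cons_self
        have := (List.mem_filter.1 ha).2
        rw [hv''] at this
        exact absurd this (by decide)
  · exact g.elim0

private theorem Dch_logb_nonneg {k : ℕ} (hk : 2 ≤ k) : 1 ≤ Real.logb 2 k := by
  rw [Real.le_logb_iff_rpow_le (by norm_num) (by positivity)]
  rw [Real.rpow_one]
  exact_mod_cast hk

private theorem Dch_log_le {k : ℕ} (_ : 2 ≤ k) : (Nat.log 2 k : ℝ) ≤ Real.logb 2 k := by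
  have := Real.natLog_le_logb k 2
  exact_mod_cast this

private theorem Dch_logb_le {k : ℕ} (hk : 2 ≤ k) : Real.logb 2 k ≤ 2 * (Nat.log 2 k : ℝ) := by
  have h1 : k < 2 ^ (Nat.log 2 k + 1) := Nat.lt_pow_succ_log_self (by norm_num) k
  have h2 : 1 ≤ Nat.log 2 k := Nat.log_pos (by norm_num) hk
  have h3 : Real.logb 2 k ≤ (Nat.log 2 k : ℝ) + 1 := by
    rw [Real.logb_le_iff_le_rpow (by norm_num) (by positivity)]
    have h4 : (k : ℝ) < 2 ^ (Nat.log 2 k + 1) := by exact_mod_cast h1
    have h5 : (2 : ℝ) ^ ((Nat.log 2 k : ℝ) + 1) = 2 ^ (Nat.log 2 k + 1) := by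
      rw [← Real.rpow_natCast]
      push_cast
      rfl
    rw [h5]
    exact h4.le
  have h4 : (1 : ℝ) ≤ Nat.log 2 k := by exact_mod_cast h2
  linarith

private theorem Dch_mono {m M : ℕ} (hm : 2 ≤ m) (h : m ≤ M) :
    (m : ℝ) * Real.logb 2 m ≤ M * Real.logb 2 M := by
  have h1 : (m : ℝ) ≤ M := by exact_mod_cast h
  have h2 : Real.logb 2 m ≤ Real.logb 2 M :=
    Real.logb_le_logb_of_le (by norm_num) (by positivity) h1
  have h3 := Dch_logb_nonneg hm
  exact mul_le_mul h1 h2 (by linarith) (by positivity)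

theorem tDch (h1 : S_Inq) (h2 : S_FzA) (h3 : S_FzB) : S_Dch := by
  by_cases H : ∃ c : ℝ, 0 < c ∧ ∀ n : ℕ, 2 ≤ n → ∀ t : ℕ, Sol n t →
      c * (n * Real.logb 2 n) ≤ t
  · exact Or.inr H
  left
  push Not at H
  -- large lengths
  have H2 : ∀ c : ℝ, 0 < c → ∀ M : ℕ, 2 ≤ M → ∃ m s : ℕ, M ≤ m ∧ Sol m s ∧
      (s : ℝ) < c * (m * Real.logb 2 m) := by
    intro c hc M hM
    have hM1 := Dch_logb_nonneg hM
    have hM0 : (0 : ℝ) < M := by positivity
    have hP : 0 < (M : ℝ) * Real.logb 2 M := by positivity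
    obtain ⟨m, hm, s, hs, hlt⟩ := H (min c (1 / (M * Real.logb 2 M)))
      (lt_min hc (by positivity))
    have hm1 := Dch_logb_nonneg hm
    have hQ : 0 < (m : ℝ) * Real.logb 2 m := by positivity
    refine ⟨m, s, ?_, hs, hlt.trans_le (mul_le_mul_of_nonneg_right (min_le_left _ _) hQ.le)⟩
    by_contra hMm
    have hs1 : s ≠ 0 := by
      rintro rfl
      exact Dch_sol0 hm hs
    have hs2 : (1 : ℝ) ≤ s := by exact_mod_cast Nat.one_le_iff_ne_zero.2 hs1
    have h4 : (s : ℝ) < 1 / (M * Real.logb 2 M) * (m * Real.logb 2 m) :=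
      hlt.trans_le (mul_le_mul_of_nonneg_right (min_le_right _ _) hQ.le)
    have h5 := Dch_mono hm (Nat.le_of_lt (Nat.not_le.1 hMm))
    have h6 : 1 / ((M : ℝ) * Real.logb 2 M) * (m * Real.logb 2 m) ≤ 1 := by
      rw [one_div, inv_mul_le_one₀ hP]
      exact h5
    linarith
  intro ε hε
  obtain ⟨C, hC⟩ := h1
  set c : ℝ := ε / (4 * (C + 1)) with hc
  have hc0 : 0 < c := by positivity
  obtain ⟨k, hk⟩ := exists_nat_ge (1 / c)
  obtain ⟨m, s, hMm, hs, hlt⟩ := H2 c hc0 (2 ^ (k + 1)) (by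
    rw [pow_succ]
    have := Nat.one_le_two_pow (n := k)
    omega)
  have hm2 : 2 ≤ m := by
    refine le_trans ?_ hMm
    rw [pow_succ]
    have := Nat.one_le_two_pow (n := k)
    omega
  refine ⟨m, fun n hn => ?_⟩
  obtain ⟨T, hT, hle⟩ := hC m n s hm2 hn (h2 m s hs)
  obtain ⟨t, htT, ht⟩ := h3 n T hT
  refine ⟨t, ht, ?_⟩
  have hn2 : 2 ≤ n := hm2.trans hn
  have hlk : k + 1 ≤ Nat.log 2 m := (Nat.le_log_iff_pow_le (by norm_num) (by omega)).2 hMm
  have hlk' : 1 / c ≤ Nat.log 2 m := by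
    refine hk.trans ?_
    have : k ≤ Nat.log 2 m := by omega
    exact_mod_cast this
  have hl1 : (1 : ℝ) ≤ Nat.log 2 m := by
    have : 1 ≤ Nat.log 2 m := by omega
    exact_mod_cast this
  have hle' : (T : ℝ) * (m * Nat.log 2 m) ≤ C * (n * Nat.log 2 n) * (s + m) := by
    exact_mod_cast hle
  have hm0 : (0 : ℝ) < m := by positivity
  have hs' : (s : ℝ) ≤ 2 * c * (m * Nat.log 2 m) := by
    have h6 := Dch_logb_le hm2
    have h7 : c * (m * Real.logb 2 m) ≤ c * (m * (2 * Nat.log 2 m)) := by gcongr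
    linarith
  have hmm : (m : ℝ) ≤ c * (m * Nat.log 2 m) := by
    have h6 : 1 ≤ c * Nat.log 2 m := by
      rw [div_le_iff₀ hc0] at hlk'
      linarith
    nlinarith
  have hML : 0 < (m : ℝ) * Nat.log 2 m := by positivity
  have hNL : 0 ≤ (C : ℝ) * (n * Nat.log 2 n) := by positivity
  have h8 : (T : ℝ) * (m * Nat.log 2 m) ≤ (C * (n * Nat.log 2 n) * (3 * c)) *
      (m * Nat.log 2 m) := by
    refine hle'.trans ?_
    have h9 : (s : ℝ) + m ≤ 3 * c * (m * Nat.log 2 m) := by linarith
    calc (C : ℝ) * (n * Nat.log 2 n) * (s + m) ≤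
        C * (n * Nat.log 2 n) * (3 * c * (m * Nat.log 2 m)) := by gcongr
      _ = _ := by ring
  have h10 : (T : ℝ) ≤ C * (n * Nat.log 2 n) * (3 * c) := le_of_mul_le_mul_right h8 hML
  have h11 : (t : ℝ) ≤ T := by exact_mod_cast htT
  have h12 := Dch_log_le hn2
  have h13 : (n : ℝ) * Nat.log 2 n ≤ n * Real.logb 2 n := by gcongr
  have h14 : 0 ≤ (n : ℝ) * Real.logb 2 n := by
    have := Dch_logb_nonneg hn2
    positivity
  have h15 : (C : ℝ) * (3 * c) ≤ ε := by
    have h16 : (4 * ((C : ℝ) + 1)) * c = ε := by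
      rw [hc]
      field_simp
    have h17 : (0 : ℝ) ≤ C := by positivity
    nlinarith
  calc (t : ℝ) ≤ C * (n * Nat.log 2 n) * (3 * c) := h11.trans h10
    _ = (C * (3 * c)) * (n * Nat.log 2 n) := by ring
    _ ≤ (C * (3 * c)) * (n * Real.logb 2 n) := by gcongr
    _ ≤ ε * (n * Real.logb 2 n) := by gcongr

end Pool.Agent.Lin
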