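import Pool.Agent.Lib.MP_76b24b_lcS.Spec

/-!
# MP_76b24b_lc, package S: some circuit for the length 8
-/

set_option autoImplicit false

namespace Pool.Agent.Lin

open Finset

theorem tExn (h1 : S_Naive) (h2 : S_Cnt) : S_Exn := by
  obtain ⟨C, hC⟩ := h2
  have e : (2 : ℕ) ^ 3 = 8 := by norm_num
  have hN := h1 3
  rw [e] at hN
  have hL : Cx (fun (y : Fin 8 × Fin 2 → Bool) (j : Fin 8 ⊕ Fin 8) =>
      Sum.elim (fun i : Fin 8 => !y (i, 1)) (fun i : Fin 8 => y (i, 0)) j)
      (Fintype.card (Fin 8 ⊕ Fin 8)) := by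
    refine (Cx.layer (ι := Fin 8 × Fin 2) (κ := Fin 8 ⊕ Fin 8)
      (Sum.elim (fun _ a _ => !a) (fun _ a _ => a))
      (Sum.elim (fun i => (i, 1)) fun i => (i, 0))
      (Sum.elim (fun i => (i, 1)) fun i => (i, 0))).congr fun x j => ?_
    rcases j with j | j <;> rfl
  have hD : Cx (fun (P : Fin 8 → Bool) (j : Fin 8) =>
      !decide ((j : ℕ) < (univ.filter fun i => P i = true).card))
      (C * 8 + Fintype.card (Fin 8)) :=
    (hC 8).comp (Cx.layer (fun _ a _ => !a) id id)
  have hA := hN.pair (hD.inp (Sum.inl : Fin 8 → Fin 8 ⊕ Fin 8))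
  have hB := hA.out (fun p : Fin 8 × Fin 2 =>
    if p.2 = 0 then (Sum.inl p.1 : Fin 8 ⊕ Fin 8) else Sum.inr p.1)
  have hE := hL.comp hB
  refine ⟨_, _, hE, ?_⟩
  intro P Q y hy j
  have hP : (fun i => !y (i, 1)) = P := funext fun i => by rw [(hy i).2, Bool.not_not]
  have hQ : (fun i => y (i, 0)) = fun i => P i && Q i := funext fun i => (hy i).1
  constructor
  · change cmp Fin.val (fun i => !y (i, 1)) (fun i => y (i, 0)) j = _
    rw [hP, hQ]
    unfold cmp
    rw [decide_eq_decide]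
    constructor
    · rintro ⟨a, ha, hb, hc⟩
      rw [Bool.and_eq_true] at hb
      exact ⟨a, ha, hb.2, hc⟩
    · rintro ⟨a, ha, hb, hc⟩
      exact ⟨a, ha, by beta_reduce; rw [ha, hb]; rfl, hc⟩
  · change (!decide ((j : ℕ) < (univ.filter fun i => (!y (i, 1)) = true).card)) = _
    have h3 : (univ.filter fun i => (!y (i, 1)) = true) = univ.filter fun i => P i = true :=
      filter_congr fun i _ => by rw [(hy i).2, Bool.not_not]
    rw [h3, ← decide_not, decide_eq_decide, not_lt]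

end Pool.Agent.Lin
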