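import Pool.Agent.Lib.MP_76b24b_lcS.Spec

/-!
# MP_76b24b_lc, package S: from the format of the frozen statement to `FF`
-/

set_option autoImplicit false

namespace Pool.Agent.Lin

open Finset

namespace FzAAux

variable {ι : Type} {s : ℕ}

private theorem exists_ev [DecidableEq ι] (op : Fin s → Bool → Bool → Bool) (l r : Fin s → ι ⊕ Fin s)
    (h1 : ∀ g h : Fin s, l g = Sum.inr h → h < g) (h2 : ∀ g h : Fin s, r g = Sum.inr h → h < g)
    (x : ι → Bool) : ∀ k : ℕ, k ≤ s → ∃ v : ι ⊕ Fin s → Bool, (∀ i, v (Sum.inl i) = x i) ∧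
      ∀ g : Fin s, (g : ℕ) < k → v (Sum.inr g) = op g (v (l g)) (v (r g)) := by
  intro k
  induction k with
  | zero =>
    intro _
    exact ⟨Sum.elim x fun _ => false, fun _ => rfl, fun g hg => absurd hg (Nat.not_lt_zero _)⟩
  | succ k ih =>
    intro hk
    obtain ⟨v, hv, hv'⟩ := ih (by omega)
    set K : Fin s := ⟨k, by omega⟩ with hK
    refine ⟨Function.update v (Sum.inr K) (op K (v (l K)) (v (r K))), ?_, ?_⟩
    · intro i
      rw [Function.update_of_ne (by simp)]
      exact hv i
    · intro g hg
      have hl : l g ≠ Sum.inr K := by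
        intro h
        have := h1 g K h
        rw [Fin.lt_def] at this
        simp only [hK] at this
        omega
      have hr : r g ≠ Sum.inr K := by
        intro h
        have := h2 g K h
        rw [Fin.lt_def] at this
        simp only [hK] at this
        omega
      rw [Function.update_of_ne hl, Function.update_of_ne hr]
      by_cases hgk : g = K
      · subst hgk
        rw [Function.update_self]
      · have hne : (Sum.inr g : ι ⊕ Fin s) ≠ Sum.inr K := fun h => hgk (Sum.inr_injective h)
        rw [Function.update_of_ne hne]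
        refine hv' g ?_
        have : (g : ℕ) ≠ k := fun h => hgk (Fin.ext h)
        omega

private theorem unique_ev (op : Fin s → Bool → Bool → Bool) (l r : Fin s → ι ⊕ Fin s)
    (h1 : ∀ g h : Fin s, l g = Sum.inr h → h < g) (h2 : ∀ g h : Fin s, r g = Sum.inr h → h < g)
    (x : ι → Bool) (v v' : ι ⊕ Fin s → Bool) (hv : ∀ i, v (Sum.inl i) = x i)
    (hv' : ∀ i, v' (Sum.inl i) = x i)
    (hg : ∀ g : Fin s, v (Sum.inr g) = op g (v (l g)) (v (r g)))
    (hg' : ∀ g : Fin s, v' (Sum.inr g) = op g (v' (l g)) (v' (r g))) : v = v' := by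
  have key : ∀ k : ℕ, ∀ g : Fin s, (g : ℕ) < k → v (Sum.inr g) = v' (Sum.inr g) := by
    intro k
    induction k with
    | zero => exact fun g hg => absurd hg (Nat.not_lt_zero _)
    | succ k ih =>
      intro g hgk
      have e : ∀ p : ι ⊕ Fin s, (∀ h : Fin s, p = Sum.inr h → h < g) → v p = v' p := by
        intro p hp
        rcases p with i | h
        · rw [hv, hv']
        · have := hp h rfl
          rw [Fin.lt_def] at this
          exact ih h (by omega)
      rw [hg, hg', e (l g) (h1 g), e (r g) (h2 g)]
  funext p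
  rcases p with i | g
  · rw [hv, hv']
  · exact key s g g.2

end FzAAux

open FzAAux in
theorem tFzA (h1 : S_Lst) : S_FzA := by
  intro n s hS
  obtain ⟨op, l, r, out, hl, hr, hv⟩ := hS
  have hex : ∀ x : Fin n × Fin 2 → Bool, ∃ v : (Fin n × Fin 2) ⊕ Fin s → Bool,
      (∀ i, v (Sum.inl i) = x i) ∧
        ∀ g : Fin s, v (Sum.inr g) = op g (v (l g)) (v (r g)) := by
    intro x
    obtain ⟨v, h2, h3⟩ := exists_ev op l r hl hr x s le_rfl
    exact ⟨v, h2, fun g => h3 g g.2⟩
  choose V hV hV' using hex
  refine ⟨fun x p => V x (out p.1 p.2), ⟨s, le_rfl, op, l, r, fun p => out p.1 p.2, hl, hr, ?_⟩,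
    ?_⟩
  · intro x v hx hg j
    have : v = V x := unique_ev op l r hl hr x v (V x) hx (hV x) hg (hV' x)
    rw [this]
  · intro P Q y hy j
    let w : Fin n → Fin 3 := fun i => if P i = true then (if Q i = true then 1 else 0) else 2
    have w2 : ∀ i, (w i ≠ 2) ↔ P i = true := by
      intro i
      simp only [w]
      split_ifs with hP hQ
      · simp [hP]
      · simp [hP]
      · simp [hP]
    have w1 : ∀ i, w i = 1 ↔ P i = true ∧ Q i = true := by
      intro i
      simp only [w]
      split_ifs with hP hQ
      · simp [hP, hQ]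
      · simp [hP, hQ]
      · simp [hP]
    have wd : (fun i => decide (w i ≠ 2)) = P := by
      funext i
      rw [Bool.eq_iff_iff, decide_eq_true_eq]
      exact w2 i
    have h2 := hv w (V y) (fun i => ⟨?_, ?_⟩) (hV' y) j
    · obtain ⟨h3, h4⟩ := h2
      obtain ⟨h5, h6⟩ := h1 n w j
      constructor
      · change V y (out j 0) = _
        rw [h3, cmp, decide_eq_decide, h5, wd]
        constructor
        · rintro ⟨i, h7, h8⟩
          exact ⟨i, ((w1 i).1 h7).1, ((w1 i).1 h7).2, h8⟩
        · rintro ⟨i, h7, h8, h9⟩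
          exact ⟨i, (w1 i).2 ⟨h7, h8⟩, h9⟩
      · change V y (out j 1) = _
        rw [h4, decide_eq_decide, h6]
        have : (univ.filter fun i => w i ≠ 2) = univ.filter fun i => P i = true :=
          filter_congr fun i _ => w2 i
        rw [this]
    · rw [hV y, (hy i).1, Bool.eq_iff_iff, decide_eq_true_eq, w1, Bool.and_eq_true]
    · rw [hV y, (hy i).2, Bool.eq_iff_iff, decide_eq_true_eq, Bool.not_eq_true']
      have := w2 i
      constructor
      · intro h
        by_contra h7
        rw [this.1 h7] at h
        exact Bool.noConfusion h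
      · intro h
        by_contra h7
        rw [Bool.not_eq_false] at h7
        exact this.2 h7 h

end Pool.Agent.Lin
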