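import Pool.Agent.Lib.MP_76b24b_lcS.Spec

/-! MP_76b24b_lc, package S, module FzB: from `FF` to the format of the frozen statement. -/

set_option autoImplicit false

namespace Pool.Agent.Lin

open Finset

theorem tFzB (h1 : S_Lst) : S_FzB := by
  rintro n s ⟨F, ⟨t, ht, op, l, r, out, a1, a2, a3⟩, hF⟩
  refine ⟨t, ht, op, l, r, fun j c => out (j, c), a1, a2, ?_⟩
  intro x v hx hg j
  have h4 := a3 (fun p => v (Sum.inl p)) v (fun _ => rfl) hg
  have h5 := hF (fun i => decide (x i ≠ 2)) (fun i => decide (x i = 1))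
    (fun p => v (Sum.inl p)) (fun i => by
      refine ⟨?_, ?_⟩
      · change v (Sum.inl (i, 0)) = _
        rw [(hx i).1]
        by_cases h : x i = 1
        · simp [h]
        · simp [h]
      · change v (Sum.inl (i, 1)) = _
        rw [(hx i).2]
        by_cases h : x i = 2
        · simp [h]
        · simp [h]) j
  obtain ⟨b1, b2⟩ := h5
  obtain ⟨c1, c2⟩ := h1 n x j
  refine ⟨?_, ?_⟩
  · rw [h4 (j, 0), b1]
    unfold cmp
    refine decide_eq_decide.2 ?_
    rw [c1]
    constructor
    · rintro ⟨i, hi, hi', hi''⟩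
      exact ⟨i, of_decide_eq_true hi', hi''⟩
    · rintro ⟨i, hi, hi'⟩
      refine ⟨i, decide_eq_true ?_, decide_eq_true hi, hi'⟩
      rw [hi]
      decide
  · rw [h4 (j, 1), b2]
    refine decide_eq_decide.2 ?_
    rw [c2]
    have : (univ.filter fun i => decide (x i ≠ 2) = true) = univ.filter fun i => x i ≠ 2 := by
      ext i
      simp
    rw [this]

end Pool.Agent.Lin
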