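import Pool.Agent.Lib.MP_76b24b_lcS.Spec

/-!
# MP_76b24b_lc, package S: `S_GF`
-/

set_option autoImplicit false

namespace Pool.Agent.Lin

open Finset

/-- The gate of an input of the instance. -/
private def gop {t : ℕ} (p : Fin 1 × In t) (a _ : Bool) : Bool :=
  Sum.elim (fun _ => false) (fun z : Fin (2 ^ t) × Fin 2 => if z.2 = 0 then !a else a) p.2

/-- The input of this gate. -/
private def gin {t : ℕ} (p : Fin 1 × In t) : Fin (2 ^ t) × Fin 2 :=
  Sum.elim (fun _ => (⟨0, Nat.two_pow_pos t⟩, 0))
    (fun z : Fin (2 ^ t) × Fin 2 => (z.1, if z.2 = 0 then 1 else 0)) p.2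

theorem tGF : S_GF := by
  intro t S h
  have g1 := Cx.layer (κ := Fin 1 × In t) (ι := Fin (2 ^ t) × Fin 2) gop gin gin
  have g2 := (g1.comp h).comp (Cx.layer (κ := Fin (2 ^ t)) (ι := Fin 1 × Ou t)
    (fun _ a _ => !a) (fun j => (0, (j, 0))) (fun j => (0, (j, 0)))).keep
  have g3 := g2.out (fun p : Fin (2 ^ t) × Fin 2 =>
    if p.2 = 0 then (Sum.inl (0, (p.1, 1)) : (Fin 1 × Ou t) ⊕ Fin (2 ^ t)) else Sum.inr p.1)
  refine ⟨_, g3.mono ?_, fun P Q y hy j => ?_⟩
  · have h1 : t < 2 ^ t := Nat.lt_two_pow_self
    have h2 : Fintype.card (Fin 1 × In t) = t + 2 ^ t * 2 := by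
      simp
    rw [h2, Fintype.card_fin]
    omega
  · -- the instance
    set x : In t → Bool := fun z => gop ((0 : Fin 1), z) (y (gin ((0 : Fin 1), z)))
      (y (gin ((0 : Fin 1), z))) with hx
    have x0 : ∀ i, x (Sum.inr (i, 0)) = P i := by
      intro i
      change (!(y (i, 1))) = P i
      rw [(hy i).2, Bool.not_not]
    have x1 : ∀ i, x (Sum.inr (i, 1)) = (P i && Q i) := by
      intro i
      change y (i, 0) = _
      exact (hy i).1
    have hoff : off x = 0 := by
      change num (fun _ : Fin t => false) = 0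
      simp [num]
    have hrk : ∀ i : ℕ, rkP x i = rk Fin.val P i := by
      intro i
      unfold rkP
      exact congrArg (fun R => rk Fin.val R i) (funext x0)
    have hcard : (univ.filter fun i => P i = true).card ≤ 2 ^ t := by
      refine (card_le_univ _).trans (le_of_eq ?_)
      rw [Fintype.card_fin]
    have hlt : ∀ i : Fin (2 ^ t), P i = true → (off x + rkP x i) % 2 ^ t = rk Fin.val P i := by
      intro i hi
      rw [hoff, Nat.zero_add, hrk]
      exact Nat.mod_eq_of_lt (lt_of_lt_of_le (rk_lt_card Fin.val P hi) hcard)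
    constructor
    · change GG t x (j, 1) = _
      unfold GG cmp
      rw [decide_eq_decide]
      constructor
      · rintro ⟨i, h1, h2, h3⟩
        rw [x0] at h1
        change x (Sum.inr (i, 1)) = true at h2
        rw [x1, h1, Bool.true_and] at h2
        rw [hlt i h1] at h3
        exact ⟨i, h1, h2, h3⟩
      · rintro ⟨i, h1, h2, h3⟩
        refine ⟨i, by rw [x0]; exact h1, ?_, ?_⟩
        · change x (Sum.inr (i, 1)) = true
          rw [x1, h1, h2]
          rfl
        · rw [hlt i h1]
          exact h3
    · change (!(GG t x (j, 0))) = _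
      unfold GG
      rw [← decide_not, decide_eq_decide]
      constructor
      · intro h1
        by_contra h2
        push Not at h2
        obtain ⟨i, h3, h4⟩ := exists_rk Fin.val Fin.val_injective P h2
        refine h1 ⟨i, by rw [x0]; exact h3, ?_, ?_⟩
        · change x (Sum.inr (i, 0)) = true
          rw [x0]
          exact h3
        · rw [hlt i h3]
          exact h4
      · rintro h1 ⟨i, h2, -, h3⟩
        rw [x0] at h2
        rw [hlt i h2] at h3
        have h4 := rk_lt_card Fin.val P h2
        change rk Fin.val P i = (j : ℕ) at h3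
        change rk Fin.val P i < _ at h4
        omega

end Pool.Agent.Lin
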