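import Pool.Agent.Lib.MP_76b24b_lcS.Spec

/-!
# MP_76b24b_lc, package S: `S_Idx`
-/

set_option autoImplicit false

namespace Pool.Agent.Lin

open Finset

private theorem idx_one {α β : Type} [Fintype α] [Fintype β] (t S : ℕ)
    (hc : Fintype.card α = Fintype.card β) (h : Cx (BG α t) S) : Cx (BG β t) S := by
  have e : β ≃ α := Fintype.equivOfCardEq hc.symm
  have h1 := (h.inp (fun p : α × In t => ((e.symm p.1, p.2) : β × In t))).out
    (fun p : β × Ou t => ((e p.1, p.2) : α × Ou t))
  refine h1.congr fun x y => ?_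
  unfold BG
  simp only [Equiv.symm_apply_apply]

private theorem idx_two {α β : Type} [Fintype β] (t S : ℕ) (h : Cx (BG α t) S) :
    Cx (BG (β × α) t) (Fintype.card β * S) := by
  have h1 := ((Cx.blocks (α := β) h).inp
    (fun p : β × (α × In t) => (((p.1, p.2.1), p.2.2) : (β × α) × In t))).out
    (fun p : (β × α) × Ou t => ((p.1.1, (p.1.2, p.2)) : β × (α × Ou t)))
  exact h1.congr fun x y => rfl

theorem tIdx : S_Idx :=
  ⟨fun _ _ _ _ t S hc h => idx_one t S hc h, fun _ _ _ t S h => idx_two t S h⟩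

end Pool.Agent.Lin
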