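import Pool.Agent.Lib.MP_76b24b_lcS.Spec

/-!
# MP_76b24b_lc, package S: the inequality
-/

set_option autoImplicit false

namespace Pool.Agent.Lin

open Finset

private theorem inq_arith (C m n S s t L : ℕ) (hs : 3 ≤ s) (h1 : 2 ^ s ≤ m) (h2 : m < 2 ^ (s + 1))
    (hm : 8 ≤ m) (hmn : m ≤ n) (htL : t = L + 1) (hsL : s ≤ L) (ht : 2 ^ t ≤ 2 * n) :
    ((t / (s - 2) + 1) * (2 ^ (t - s + 2) * (2 * (S + 2) + C * 2 ^ s)) + 4 * 2 ^ t + 2) *
      (m * s) ≤ (128 * (C + 4) + 10) * (n * L) * (S + m) := by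
  have ha : (t / (s - 2) + 1) * s ≤ 4 * t := by
    have e1 : t / (s - 2) * (s - 2) ≤ t := Nat.div_mul_le_self _ _
    have e2 : s ≤ 3 * (s - 2) := by omega
    calc (t / (s - 2) + 1) * s = t / (s - 2) * s + s := by ring
      _ ≤ t / (s - 2) * (3 * (s - 2)) + t :=
        Nat.add_le_add (Nat.mul_le_mul_left _ e2) (by omega)
      _ = 3 * (t / (s - 2) * (s - 2)) + t := by ring
      _ ≤ 4 * t := by omega
  have hb : 4 * t ≤ 8 * L := by omega
  have hc : 2 ^ (t - s + 2) * m ≤ 16 * n := by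
    calc 2 ^ (t - s + 2) * m ≤ 2 ^ (t - s + 2) * 2 ^ (s + 1) := Nat.mul_le_mul_left _ h2.le
      _ = 2 ^ (t + 3) := by
        rw [← pow_add]
        congr 1
        omega
      _ = 8 * 2 ^ t := by
        rw [pow_add]
        ring
      _ ≤ 16 * n := by omega
  have hd : 2 * (S + 2) + C * 2 ^ s ≤ (C + 4) * (S + m) := by
    have e3 : C * 2 ^ s ≤ C * m := Nat.mul_le_mul_left _ h1
    nlinarith [Nat.zero_le (C * S)]
  have he : (4 * 2 ^ t + 2) * (m * s) ≤ 10 * (n * L) * (S + m) := by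
    calc (4 * 2 ^ t + 2) * (m * s) ≤ (10 * n) * ((S + m) * L) :=
          Nat.mul_le_mul (by omega) (Nat.mul_le_mul (by omega) hsL)
      _ = 10 * (n * L) * (S + m) := by ring
  have hf : (t / (s - 2) + 1) * (2 ^ (t - s + 2) * (2 * (S + 2) + C * 2 ^ s)) * (m * s) ≤
      128 * (C + 4) * (n * L) * (S + m) := by
    calc (t / (s - 2) + 1) * (2 ^ (t - s + 2) * (2 * (S + 2) + C * 2 ^ s)) * (m * s)
        = ((t / (s - 2) + 1) * s) * ((2 ^ (t - s + 2) * m) * (2 * (S + 2) + C * 2 ^ s)) := by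
          ring
      _ ≤ (8 * L) * ((16 * n) * ((C + 4) * (S + m))) :=
          Nat.mul_le_mul (ha.trans hb) (Nat.mul_le_mul hc hd)
      _ = 128 * (C + 4) * (n * L) * (S + m) := by ring
  calc ((t / (s - 2) + 1) * (2 ^ (t - s + 2) * (2 * (S + 2) + C * 2 ^ s)) + 4 * 2 ^ t + 2) *
        (m * s)
      = (t / (s - 2) + 1) * (2 ^ (t - s + 2) * (2 * (S + 2) + C * 2 ^ s)) * (m * s) +
        (4 * 2 ^ t + 2) * (m * s) := by ring
    _ ≤ 128 * (C + 4) * (n * L) * (S + m) + 10 * (n * L) * (S + m) := Nat.add_le_add hf he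
    _ = (128 * (C + 4) + 10) * (n * L) * (S + m) := by ring

private theorem inq_core (h1 : S_Rec) (h2 : S_GF) (h3 : S_Pad) :
    ∃ C : ℕ, ∀ m n S : ℕ, 8 ≤ m → m ≤ n → FF m S →
      ∃ T : ℕ, FF n T ∧ T * (m * Nat.log 2 m) ≤ C * (n * Nat.log 2 n) * (S + m) := by
  obtain ⟨C, hC⟩ := h1
  refine ⟨128 * (C + 4) + 10, fun m n S hm hmn hF => ?_⟩
  have hm0 : m ≠ 0 := by omega
  have hn0 : n ≠ 0 := by omega
  have hs : 3 ≤ Nat.log 2 m := by
    rw [Nat.le_log_iff_pow_le (by norm_num) hm0]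
    norm_num
    exact hm
  have hsL : Nat.log 2 m ≤ Nat.log 2 n := Nat.log_mono_right hmn
  have hle : 2 ^ Nat.log 2 m ≤ m := Nat.pow_log_le_self 2 hm0
  have hlt : m < 2 ^ (Nat.log 2 m + 1) := Nat.lt_pow_succ_log_self (by norm_num) m
  have hnlt : n < 2 ^ (Nat.log 2 n + 1) := Nat.lt_pow_succ_log_self (by norm_num) n
  have hnle : 2 ^ (Nat.log 2 n + 1) ≤ 2 * n := by
    rw [pow_succ]
    have := Nat.pow_log_le_self 2 hn0
    omega
  have hF1 := h3 _ _ _ hle hF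
  have hF2 := hC (Nat.log 2 m) (Nat.log 2 n + 1) (S + 2) hs (by omega) hF1
  have hF3 := h3 _ _ _ hnlt.le (h2 _ _ hF2)
  exact ⟨_, hF3, inq_arith C m n S _ _ _ hs hle hlt hm hmn rfl hsL hnle⟩

theorem tInq (h1 : S_Rec) (h2 : S_GF) (h3 : S_Pad) (h4 : S_Exn) : S_Inq := by
  obtain ⟨C, hC⟩ := inq_core h1 h2 h3
  obtain ⟨S8, h8⟩ := h4
  refine ⟨C + C * (S8 + 8) + 14 * (S8 + 2), fun m n S hm hmn hF => ?_⟩
  have hn0 : n ≠ 0 := by omega
  have hlogn : 1 ≤ Nat.log 2 n := by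
    rw [Nat.le_log_iff_pow_le (by norm_num) hn0]
    omega
  have hnL : 1 ≤ n * Nat.log 2 n := Nat.mul_pos (by omega) hlogn
  rcases le_or_gt 8 m with h | h
  · obtain ⟨T, hT, hTle⟩ := hC m n S h hmn hF
    refine ⟨T, hT, hTle.trans ?_⟩
    refine Nat.mul_le_mul_right _ (Nat.mul_le_mul_right _ ?_)
    rw [Nat.add_assoc]
    exact Nat.le_add_right _ _
  · have hlog : Nat.log 2 m ≤ 2 := by
      have : Nat.log 2 m < 3 := Nat.log_lt_of_lt_pow (by omega) (by norm_num; exact h)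
      omega
    have h14 : m * Nat.log 2 m ≤ 14 := by
      calc m * Nat.log 2 m ≤ 7 * 2 := Nat.mul_le_mul (by omega) hlog
        _ = 14 := rfl
    rcases le_or_gt 8 n with h' | h'
    · obtain ⟨T, hT, hTle⟩ := hC 8 n S8 le_rfl h' h8
      refine ⟨T, hT, ?_⟩
      have hl8 : Nat.log 2 8 = 3 := by
        rw [show (8 : ℕ) = 2 ^ 3 by norm_num, Nat.log_pow (by norm_num)]
      rw [hl8] at hTle
      calc T * (m * Nat.log 2 m) ≤ T * (8 * 3) := Nat.mul_le_mul_left _ (by omega)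
        _ ≤ C * (n * Nat.log 2 n) * (S8 + 8) := hTle
        _ = C * (S8 + 8) * (n * Nat.log 2 n) * 1 := by ring
        _ ≤ (C + C * (S8 + 8) + 14 * (S8 + 2)) * (n * Nat.log 2 n) * (S + m) := by
          refine Nat.mul_le_mul (Nat.mul_le_mul_right _ ?_) (by omega)
          omega
    · have hF1 := h3 n 8 S8 h'.le h8
      refine ⟨S8 + 2, hF1, ?_⟩
      calc (S8 + 2) * (m * Nat.log 2 m) ≤ (S8 + 2) * 14 := Nat.mul_le_mul_left _ h14
        _ = 14 * (S8 + 2) * 1 * 1 := by ring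
        _ ≤ (C + C * (S8 + 8) + 14 * (S8 + 2)) * (n * Nat.log 2 n) * (S + m) := by
          refine Nat.mul_le_mul (Nat.mul_le_mul ?_ hnL) (by omega)
          omega

end Pool.Agent.Lin
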