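import Pool.Agent.Lib.MP_76b24b_lcS.Spec

/-!
# MP_76b24b_lc, package S: padding (S_Pad)

A circuit for words of length `m` gives one for words of length `n ≤ m`, with two constants more.
-/

set_option autoImplicit false

namespace Pool.Agent.Lin

open Finset

/-- The padded word. -/
private def padF {n m : ℕ} (P : Fin n → Bool) (i : Fin m) : Bool :=
  if h : (i : ℕ) < n then P ⟨i, h⟩ else false

private theorem padF_castLE {n m : ℕ} (hnm : n ≤ m) (P : Fin n → Bool) (i : Fin n) :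
    padF P (Fin.castLE hnm i) = P i := by
  unfold padF
  rw [dif_pos (show ((Fin.castLE hnm i : Fin m) : ℕ) < n from i.2)]
  rfl

private theorem padF_true {n m : ℕ} (hnm : n ≤ m) (P : Fin n → Bool) {i : Fin m}
    (h : padF P i = true) : ∃ i' : Fin n, Fin.castLE hnm i' = i ∧ P i' = true := by
  unfold padF at h
  by_cases hi : (i : ℕ) < n
  · rw [dif_pos hi] at h
    exact ⟨⟨i, hi⟩, rfl, h⟩
  · rw [dif_neg hi] at h
    exact absurd h Bool.false_ne_true

private theorem rk_padF {n m : ℕ} (hnm : n ≤ m) (P : Fin n → Bool) (q : ℕ) :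
    rk Fin.val (padF P : Fin m → Bool) q = rk Fin.val P q := by
  unfold rk
  symm
  refine card_bij (fun a _ => Fin.castLE hnm a) (fun a ha => ?_)
    (fun a _ a' _ haa => Fin.castLE_injective hnm haa) fun b hb => ?_
  · rw [mem_filter] at ha ⊢
    rw [padF_castLE]
    exact ⟨mem_univ _, ha.2⟩
  · rw [mem_filter] at hb
    obtain ⟨_, h1, h2⟩ := hb
    obtain ⟨a, rfl, ha⟩ := padF_true hnm P h2
    exact ⟨a, mem_filter.2 ⟨mem_univ a, h1, ha⟩, rfl⟩

private theorem card_padF {n m : ℕ} (hnm : n ≤ m) (P : Fin n → Bool) :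
    (univ.filter fun i : Fin m => padF P i = true).card =
      (univ.filter fun i => P i = true).card := by
  have h1 := rk_eq_card (Fin.val : Fin m → ℕ) (padF P) (q := m) fun a => a.2
  have h2 := rk_eq_card (Fin.val : Fin n → ℕ) P (q := m) fun a => a.2.trans_le hnm
  rw [← h1, ← h2, rk_padF hnm]

private theorem cmp_padF {n m : ℕ} (hnm : n ≤ m) (P Q : Fin n → Bool) (j : ℕ) :
    cmp Fin.val (padF P : Fin m → Bool) (padF Q) j = cmp Fin.val P Q j := by
  unfold cmp
  rw [decide_eq_decide]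
  constructor
  · rintro ⟨a, h1, h2, h3⟩
    obtain ⟨a', rfl, ha⟩ := padF_true hnm P h1
    rw [padF_castLE] at h2
    rw [rk_padF hnm] at h3
    exact ⟨a', ha, h2, h3⟩
  · rintro ⟨a, h1, h2, h3⟩
    refine ⟨Fin.castLE hnm a, ?_, ?_, ?_⟩
    · rw [padF_castLE]
      exact h1
    · rw [padF_castLE]
      exact h2
    · rw [rk_padF hnm]
      exact h3

theorem tPad : S_Pad := by
  intro n m S hnm hFF
  obtain ⟨G, hG, hspec⟩ := hFF
  rcases Nat.eq_zero_or_pos n with rfl | hn
  · refine ⟨fun _ p => p.1.elim0, ((Cx.proj (ι := Fin 0 × Fin 2) (κ := Fin 0 × Fin 2)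
      fun p => p).congr fun x p => p.1.elim0).mono (Nat.zero_le _), fun P Q y _ j => j.elim0⟩
  · have : Nonempty (Fin n × Fin 2) := ⟨(⟨0, hn⟩, 0)⟩
    let ρ : Fin m × Fin 2 → (Fin n × Fin 2) ⊕ Fin 2 := fun p =>
      if h : (p.1 : ℕ) < n then Sum.inl (⟨p.1, h⟩, p.2) else Sum.inr p.2
    have h1 : Cx (fun (y : Fin n × Fin 2 → Bool) (e : Fin 2) => decide (e = 1)) 2 := by
      have := Cx.consts (ι := Fin n × Fin 2) (fun e : Fin 2 => decide (e = 1))
      rwa [Fintype.card_fin] at this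
    have h2 := ((h1.keep.out ρ).comp hG).out
      (fun p : Fin n × Fin 2 => ((Fin.castLE hnm p.1, p.2) : Fin m × Fin 2))
    refine ⟨_, h2.mono (le_of_eq (Nat.add_comm 2 S)), fun P Q y hy j => ?_⟩
    have h3 := hspec (padF P) (padF Q) (fun p => Sum.elim y (fun e : Fin 2 => decide (e = 1)) (ρ p))
      (fun i => ?_) (Fin.castLE hnm j)
    · rw [cmp_padF hnm, card_padF hnm] at h3
      exact h3
    · by_cases hi : (i : ℕ) < n
      · have e1 : ∀ e : Fin 2, ρ (i, e) = Sum.inl (⟨i, hi⟩, e) := fun e => dif_pos hi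
        have e2 : ∀ R : Fin n → Bool, padF R i = R ⟨i, hi⟩ := fun R => dif_pos hi
        rw [e1, e1, e2, e2]
        exact hy ⟨i, hi⟩
      · have e1 : ∀ e : Fin 2, ρ (i, e) = Sum.inr e := fun e => dif_neg hi
        have e2 : ∀ R : Fin n → Bool, padF R i = false := fun R => dif_neg hi
        rw [e1, e1, e2, e2]
        exact ⟨rfl, rfl⟩

end Pool.Agent.Lin
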