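import Pool.Agent.Lib.MP_76b24b_lcS.Spec

/-!
# MP_76b24b_lc, package S, module PrM: the offsets of the rows
-/

set_option autoImplicit false

namespace Pool.Agent.Lin

open Finset

private def Smp {N K : ℕ} (x : Fin N × Fin K → Bool) (i : ℕ) : ℕ :=
  ∑ i' : Fin N, if (i' : ℕ) < i then num (fun t => x (i', t)) else 0

private theorem Smp_zero {N K : ℕ} (x : Fin N × Fin K → Bool) : Smp x 0 = 0 := by
  simp [Smp]

private theorem Smp_succ {N K : ℕ} (x : Fin N × Fin K → Bool) (i : ℕ) (hi : i < N) :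
    Smp x (i + 1) = Smp x i + num (fun t => x (⟨i, hi⟩, t)) := by
  unfold Smp
  have h1 : ∀ i' : Fin N, (if (i' : ℕ) < i + 1 then num (fun t => x (i', t)) else 0) =
      (if (i' : ℕ) < i then num (fun t => x (i', t)) else 0) +
      (if i' = ⟨i, hi⟩ then num (fun t => x (i', t)) else 0) := by
    intro i'
    by_cases h1 : (i' : ℕ) < i
    · have h2 : ¬ i' = ⟨i, hi⟩ := by
        intro h; rw [h] at h1; simp at h1
      rw [if_pos h1, if_pos (by omega), if_neg h2, add_zero]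
    · by_cases h2 : i' = ⟨i, hi⟩
      · have h3 : (i' : ℕ) = i := by rw [h2]
        rw [if_neg h1, if_pos (by omega), if_pos h2, zero_add]
      · have h3 : (i' : ℕ) ≠ i := fun h => h2 (Fin.ext h)
        rw [if_neg h1, if_neg (by omega), if_neg h2, zero_add]
  rw [Finset.sum_congr rfl fun i' _ => h1 i', Finset.sum_add_distrib]
  simp

private theorem stp (hA : S_Add) {N K : ℕ} : ∀ i : ℕ, i ≤ N →
    Cx (fun (x : Fin K ⊕ (Fin N × Fin K) → Bool) (p : Fin (i + 1) × Fin K) =>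
      ((num fun t => x (Sum.inl t)) + Smp (fun q => x (Sum.inr q)) p.1).testBit p.2)
      (5 * K * i)
  | 0, _ => by
    refine ((Cx.proj (fun p : Fin (0 + 1) × Fin K =>
      (Sum.inl p.2 : Fin K ⊕ (Fin N × Fin K)))).mono (by omega)).congr fun x p => ?_
    have hp : ((p.1 : Fin (0 + 1)) : ℕ) = 0 := by have := p.1.isLt; omega
    rw [hp, Smp_zero]
    exact (testBit_num_fin (fun t => x (Sum.inl t)) p.2).symm
  | i + 1, hi => by
    have ih := stp hA (N := N) (K := K) i (by omega)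
    have h1 := (hA K).inp (Sum.elim
      (fun t : Fin K => (Sum.inr (Fin.last i, t) :
        (Fin K ⊕ (Fin N × Fin K)) ⊕ (Fin (i + 1) × Fin K)))
      (fun t : Fin K => Sum.inl (Sum.inr ((⟨i, by omega⟩ : Fin N), t))))
    have h2 := (ih.keep.comp h1.keep).out (fun p : Fin (i + 1 + 1) × Fin K =>
      if hp : (p.1 : ℕ) < i + 1 then
        (Sum.inl (Sum.inr ((⟨p.1, hp⟩ : Fin (i + 1)), p.2)) :
          ((Fin K ⊕ (Fin N × Fin K)) ⊕ (Fin (i + 1) × Fin K)) ⊕ Fin K) else Sum.inr p.2)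
    refine (h2.mono (by ring_nf; exact le_rfl)).congr fun x p => ?_
    by_cases hp : (p.1 : ℕ) < i + 1
    · simp only [hp, dif_pos, Sum.elim_inl, Sum.elim_inr]
    · have hp' : (p.1 : ℕ) = i + 1 := by have := p.1.isLt; omega
      simp only [hp, dif_neg, not_false_eq_true, Sum.elim_inl, Sum.elim_inr, Fin.val_last]
      rw [hp', Smp_succ _ i (by omega), num_testBit_mod]
      refine testBit_congr (k := K) p.2.isLt ?_
      rw [Nat.mod_add_mod, Nat.add_assoc]

private theorem cell_inj {t b : ℕ} {q q' : Fin (2 ^ t)} {c c' : Fin (2 ^ b)}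
    (h : cell q c = cell q' c') : q = q' ∧ c = c' := by
  have h0 : (q : ℕ) * 2 ^ b + c = q' * 2 ^ b + c' := congrArg Fin.val h
  have hc := c.2
  have hc' := c'.2
  have h1 : (q : ℕ) = q' := by
    rcases lt_trichotomy (q : ℕ) q' with h5 | h5 | h5
    · have h6 : ((q : ℕ) + 1) * 2 ^ b ≤ q' * 2 ^ b := Nat.mul_le_mul_right _ h5
      rw [Nat.succ_mul] at h6
      omega
    · exact h5
    · have h6 : ((q' : ℕ) + 1) * 2 ^ b ≤ q * 2 ^ b := Nat.mul_le_mul_right _ h5
      rw [Nat.succ_mul] at h6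
      omega
  refine ⟨Fin.ext h1, Fin.ext ?_⟩
  rw [h1] at h0
  omega

private theorem rkP_row {t b : ℕ} (x : In (t + b) → Bool) (q : Fin (2 ^ t)) :
    rkP x (q * 2 ^ b) = ∑ i' : Fin (2 ^ t), if (i' : ℕ) < q then
      (univ.filter fun c : Fin (2 ^ b) => x (Sum.inr (cell i' c, 0)) = true).card else 0 := by
  have hbij : Function.Bijective (fun p : Fin (2 ^ t) × Fin (2 ^ b) => cell p.1 p.2) := by
    constructor
    · rintro ⟨q1, c1⟩ ⟨q2, c2⟩ h
      obtain ⟨h1, h2⟩ := cell_inj h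
      exact Prod.ext h1 h2
    · intro i
      obtain ⟨q1, c1, h⟩ := exists_cell i
      exact ⟨(q1, c1), h.symm⟩
  have h1 := rk_equiv (Equiv.ofBijective _ hbij)
    (fun p : Fin (2 ^ t) × Fin (2 ^ b) => p.1 * 2 ^ b + (Fin.val p.2)) Fin.val
    (fun a => rfl) (fun i : Fin (2 ^ (t + b)) => x (Sum.inr (i, 0))) (q * 2 ^ b)
  have h2 := rk_lex (β := Fin (2 ^ b)) Fin.val (fun z => z.2)
    (fun p : Fin (2 ^ t) × Fin (2 ^ b) => x (Sum.inr (cell p.1 p.2, 0))) q (q := 0) (Nat.zero_le _)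
  rw [rk_zero, Nat.add_zero, Nat.add_zero] at h2
  unfold rkP
  rw [h1]
  refine h2.trans ?_
  rw [sum_filter]
  rfl

theorem tPrM (hA : S_Add) (hP : S_Pop) : S_PrM := by
  refine ⟨22, fun t b => ?_⟩
  have h1 := ((hP b).blocks (α := Fin (2 ^ t))).inp (fun p : Fin (2 ^ t) × Fin (2 ^ b) =>
    (Sum.inr (cell p.1 p.2, 0) : In (t + b)))
  have h2 := h1.keep.out (Sum.elim (fun τ : Fin b => (Sum.inl (Sum.inl ⟨τ, by omega⟩) :
      In (t + b) ⊕ (Fin (2 ^ t) × Fin (b + 1))))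
    (fun p : Fin (2 ^ t) × Fin b => Sum.inr (p.1, Fin.castSucc p.2)))
  have h3 := (h2.comp (stp hA (N := 2 ^ t) (K := b) (2 ^ t) le_rfl)).out
    (fun p : Fin (2 ^ t) × Fin b => (Fin.castSucc p.1, p.2))
  refine (h3.mono ?_).congr fun x p => ?_
  · rw [Fintype.card_fin, pow_add]
    have hb : b ≤ 2 ^ b := Nat.lt_two_pow_self.le
    calc 2 ^ t * (17 * 2 ^ b) + 5 * b * 2 ^ t = 2 ^ t * (17 * 2 ^ b + 5 * b) := by ring
      _ ≤ 2 ^ t * (22 * 2 ^ b) := Nat.mul_le_mul_left _ (by omega)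
      _ = 22 * (2 ^ t * 2 ^ b) := by ring
  · refine testBit_congr (k := b) p.2.isLt ?_
    have e1 : (num fun τ : Fin b => x (Sum.inl ⟨τ, by omega⟩)) = off x % 2 ^ b := off_mod x
    have e2 : Smp (fun q : Fin (2 ^ t) × Fin b =>
        ((univ.filter fun c : Fin (2 ^ b) => x (Sum.inr (cell q.1 c, 0)) = true).card).testBit q.2)
        p.1 % 2 ^ b = rkP x (p.1 * 2 ^ b) % 2 ^ b := by
      rw [rkP_row]
      unfold Smp
      rw [Finset.sum_nat_mod, Finset.sum_nat_mod (s := univ) (f := fun i' : Fin (2 ^ t) =>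
        if (i' : ℕ) < p.1 then
          (univ.filter fun c : Fin (2 ^ b) => x (Sum.inr (cell i' c, 0)) = true).card else 0)]
      congr 1
      refine sum_congr rfl fun i' _ => ?_
      split_ifs
      · change (num fun τ : Fin b => (univ.filter fun c : Fin (2 ^ b) =>
          x (Sum.inr (cell i' c, 0)) = true).card.testBit τ) % 2 ^ b = _
        rw [num_testBit_mod, Nat.mod_mod]
      · rfl
    change ((num fun τ : Fin b => x (Sum.inl ⟨τ, by omega⟩)) +
      Smp (fun q : Fin (2 ^ t) × Fin b =>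
        ((univ.filter fun c : Fin (2 ^ b) => x (Sum.inr (cell q.1 c, 0)) = true).card).testBit q.2)
        p.1) % 2 ^ b = _
    rw [e1, Nat.add_mod, Nat.mod_mod, e2, ← Nat.add_mod]

end Pool.Agent.Lin
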