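import Pool.Agent.Lib.MP_76b24b_lcS.Spec

/-!
# MP_76b24b_lc, package S: `S_Prd`
-/

set_option autoImplicit false

namespace Pool.Agent.Lin

open Finset

/-- The wires after the offsets have been computed. -/
private abbrev W1 (a t b : ℕ) : Type :=
  (Fin (2 ^ a) × In (t + b)) ⊕
    ((Fin (2 ^ a) × (Fin (2 ^ t) × Fin b)) ⊕ (Fin (2 ^ a) × (Fin (2 ^ b) × Fin t)))

private def r1 (a t b : ℕ) (p : (Fin (2 ^ a) × Fin (2 ^ t)) × In b) : W1 a t b :=
  Sum.elim (fun τ => Sum.inr (Sum.inl (p.1.1, (p.1.2, τ))))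
    (fun z => Sum.inl (p.1.1, Sum.inr (cell p.1.2 z.1, z.2))) p.2

private def r2 (a t b : ℕ) (p : (Fin (2 ^ a) × Fin (2 ^ b)) × In t) :
    W1 a t b ⊕ ((Fin (2 ^ a) × Fin (2 ^ t)) × Ou b) :=
  Sum.elim (fun τ => Sum.inl (Sum.inr (Sum.inr (p.1.1, (p.1.2, τ)))))
    (fun z => Sum.inr ((p.1.1, z.1), (p.1.2, z.2))) p.2

private def w1 (a t b : ℕ) (x : Fin (2 ^ a) × In (t + b) → Bool) : W1 a t b → Bool :=
  Sum.elim x (Sum.elim
    (fun p => ((off fun i => x (p.1, i)) + rkP (fun i => x (p.1, i)) (p.2.1 * 2 ^ b)).testBit p.2.2)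
    fun p => (cof (fun i => x (p.1, i)) p.2.1).testBit p.2.2)

private theorem row_eq (a t b : ℕ) (x : Fin (2 ^ a) × In (t + b) → Bool) (k : Fin (2 ^ a))
    (q : Fin (2 ^ t)) (y : Ou b) :
    BG (Fin (2 ^ a) × Fin (2 ^ t)) b (fun i => w1 a t b x (r1 a t b i)) ((k, q), y) =
      GG b (row (fun z => x (k, z)) q) y := by
  unfold BG
  refine congrArg (fun w => GG b w y) (funext fun z => ?_)
  rcases z with τ | ⟨c, e⟩ <;> rfl

private theorem col_eq (a t b : ℕ) (x : Fin (2 ^ a) × In (t + b) → Bool) (k : Fin (2 ^ a))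
    (c : Fin (2 ^ b)) (y : Ou t) :
    BG (Fin (2 ^ a) × Fin (2 ^ b)) t (fun i => Sum.elim (w1 a t b x)
      (BG (Fin (2 ^ a) × Fin (2 ^ t)) b fun i => w1 a t b x (r1 a t b i)) (r2 a t b i)) ((k, c), y) =
      GG t (col (fun z => x (k, z)) c) y := by
  conv_lhs => unfold BG
  refine congrArg (fun w => GG t w y) (funext fun z => ?_)
  rcases z with τ | ⟨q, e⟩
  · rfl
  · exact row_eq a t b x k q (c, e)

theorem tPrd (h1 : S_PrM) (h2 : S_Cof) (h3 : S_Pro) : S_Prd := by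
  obtain ⟨C₁, hC₁⟩ := h1
  obtain ⟨C₂, hC₂⟩ := h2
  refine ⟨C₁ + C₂, fun a t b S S' hS hS' => ?_⟩
  choose rw cl hrc using fun i : Fin (2 ^ (t + b)) => exists_cell i
  have g1 := ((Cx.blocks (α := Fin (2 ^ a)) (hC₁ t b)).pair
    (Cx.blocks (α := Fin (2 ^ a)) (hC₂ t b))).keep
  have g2 := g1.comp (hS.inp (r1 a t b)).keep
  have g3 := g2.comp (hS'.inp (r2 a t b))
  have g4 := g3.out (fun p : Fin (2 ^ a) × Ou (t + b) =>
    (((p.1, cl p.2.1), (rw p.2.1, p.2.2)) : (Fin (2 ^ a) × Fin (2 ^ b)) × Ou t))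
  refine (g4.mono (le_of_eq ?_)).congr fun x y => ?_
  · rw [Fintype.card_fin, pow_add, pow_add, pow_add]
    ring
  · obtain ⟨k, i, e⟩ := y
    have h4 : GG (t + b) (fun z => x (k, z)) (i, e) =
        GG t (col (fun z => x (k, z)) (cl i)) (rw i, e) := by
      rw [h3]
      exact congrArg (fun j => GG (t + b) (fun z => x (k, z)) (j, e)) (hrc i)
    rw [show BG (Fin (2 ^ a)) (t + b) x (k, i, e) = GG (t + b) (fun z => x (k, z)) (i, e) from rfl,
      h4]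
    exact col_eq a t b x k (cl i) (rw i, e)

end Pool.Agent.Lin
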