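import Pool.Agent.Lib.MP_76b24b_lcS.Spec

set_option autoImplicit false

namespace Pool.Agent.Lin

open Finset

private theorem rkP_step {n : ℕ} (x : In n → Bool) (i : Fin (2 ^ n)) :
    rkP x (i + 1) = rkP x i + if x (Sum.inr (i, 0)) = true then 1 else 0 :=
  rk_succ (fun i : Fin (2 ^ n) => x (Sum.inr (i, 0))) i

private theorem rkP_zero {n : ℕ} (x : In n → Bool) : rkP x 0 = 0 := rk_zero _ _

private theorem rkP_row {t b : ℕ} (x : In (t + b) → Bool) (q : Fin (2 ^ t)) :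
    ∀ c' : ℕ, c' ≤ 2 ^ b → rkP x (q * 2 ^ b + c') = rkP x (q * 2 ^ b) + rkP (row x q) c' := by
  intro c'
  induction c' with
  | zero => intro _; rw [rkP_zero, Nat.add_zero, Nat.add_zero]
  | succ c' ih =>
    intro h
    have h1 := rkP_step x (cell q ⟨c', h⟩)
    have h2 := rkP_step (row x q) ⟨c', h⟩
    have h3 : ((cell q ⟨c', h⟩ : Fin (2 ^ (t + b))) : ℕ) = q * 2 ^ b + c' := rfl
    have h4 : row x q (Sum.inr (⟨c', h⟩, 0)) = x (Sum.inr (cell q ⟨c', h⟩, 0)) := rfl
    rw [h3, ih (by omega)] at h1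
    rw [h4] at h2
    have h5 : ((⟨c', h⟩ : Fin (2 ^ b)) : ℕ) = c' := rfl
    rw [h5] at h2
    rw [← Nat.add_assoc, h1, h2]
    omega

private theorem rkP_cell {t b : ℕ} (x : In (t + b) → Bool) (q : Fin (2 ^ t)) (d : Fin (2 ^ b)) :
    rkP x (cell q d) = rkP x (q * 2 ^ b) + rkP (row x q) d :=
  rkP_row x q d d.2.le

private theorem GG_row {t b : ℕ} (x : In (t + b) → Bool) (q : Fin (2 ^ t)) (c : Fin (2 ^ b))
    (e : Fin 2) : GG b (row x q) (c, e) = decide (∃ d : Fin (2 ^ b),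
      x (Sum.inr (cell q d, 0)) = true ∧ x (Sum.inr (cell q d, e)) = true ∧
        (off x + rkP x (cell q d)) % 2 ^ b = c) := by
  unfold GG
  rw [decide_eq_decide]
  refine exists_congr fun d => ?_
  have h1 : (off (row x q) + rkP (row x q) d) % 2 ^ b = (off x + rkP x (cell q d)) % 2 ^ b := by
    rw [off_row, Nat.mod_add_mod, Nat.add_assoc, ← rkP_cell]
  change _ ∧ _ ∧ _ = (c : ℕ) ↔ _
  rw [h1]
  exact Iff.rfl

/-- the number of the `y' < y` with `y' % B = c`, shifted -/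
private def ph (B c y : ℕ) : ℕ := (y + B - 1 - c) / B

private theorem ph_succ {B c : ℕ} (hc : c < B) (y : ℕ) :
    ph B c (y + 1) = ph B c y + if y % B = c then 1 else 0 := by
  unfold ph
  have h1 : y + 1 + B - 1 - c = (y + B - 1 - c) + 1 := by omega
  rw [h1, Nat.succ_div]
  congr 1
  have h2 : B ∣ y + B - 1 - c + 1 ↔ y % B = c := by
    have h3 : y + B - 1 - c + 1 = y + B - c := by omega
    rw [h3]
    have h4 := Nat.div_add_mod y B
    constructor
    · rintro ⟨k, hk⟩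
      have h5 : k ≠ 0 := by
        rintro rfl
        rw [Nat.mul_zero] at hk
        omega
      obtain ⟨k', rfl⟩ := Nat.exists_eq_succ_of_ne_zero h5
      have h6 : y = c + B * k' := by
        rw [Nat.mul_succ] at hk
        omega
      rw [h6, Nat.add_mul_mod_self_left, Nat.mod_eq_of_lt hc]
    · intro h5
      refine ⟨y / B + 1, ?_⟩
      rw [Nat.mul_succ]
      omega
  simp only [h2]

private theorem ph_of {B c G g : ℕ} (hc : c < B) (hg : g % B = c) (h1 : G ≤ g) (h2 : g < G + B) :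
    ph B c G = g / B := by
  unfold ph
  have h4 := Nat.div_add_mod' g B
  have h5 : (g / B + 1) * B = g / B * B + B := Nat.succ_mul _ _
  refine Nat.div_eq_of_lt_le ?_ ?_
  · omega
  · rw [h5]
    omega

private theorem ph_off {B c : ℕ} (hc : c < B) (o : ℕ) :
    ph B c o = o / B + if c < o % B then 1 else 0 := by
  unfold ph
  have h4 := Nat.div_add_mod' o B
  have h6 : o % B < B := Nat.mod_lt _ (by omega)
  split_ifs with h
  · have h5 : (o / B + 1) * B = o / B * B + B := Nat.succ_mul _ _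
    have h7 : (o / B + 1 + 1) * B = o / B * B + B + B := by rw [Nat.succ_mul, h5]
    refine Nat.div_eq_of_lt_le ?_ ?_
    · rw [h5]
      omega
    · rw [h7]
      omega
  · have h5 : (o / B + 1) * B = o / B * B + B := Nat.succ_mul _ _
    rw [Nat.add_zero]
    refine Nat.div_eq_of_lt_le ?_ ?_
    · omega
    · rw [h5]
      omega

/-- the letters of the row `q` whose number is `c` modulo `2 ^ b` -/
private def QQ {t b : ℕ} (x : In (t + b) → Bool) (c : Fin (2 ^ b)) (q : Fin (2 ^ t))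
    (d : Fin (2 ^ b)) : Bool :=
  x (Sum.inr (cell q d, 0)) && decide ((off x + rkP x (cell q d)) % 2 ^ b = c)

private theorem QQ_iff {t b : ℕ} (x : In (t + b) → Bool) (c : Fin (2 ^ b)) (q : Fin (2 ^ t))
    (d : Fin (2 ^ b)) : QQ x c q d = true ↔ x (Sum.inr (cell q d, 0)) = true ∧
      (off x + rkP x (cell q d)) % 2 ^ b = c := by
  unfold QQ
  rw [Bool.and_eq_true, decide_eq_true_eq]

private theorem ph_row {t b : ℕ} (x : In (t + b) → Bool) (c : Fin (2 ^ b)) (q : Fin (2 ^ t)) :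
    ∀ c' : ℕ, c' ≤ 2 ^ b → ph (2 ^ b) c (off x + rkP x (q * 2 ^ b + c')) =
      ph (2 ^ b) c (off x + rkP x (q * 2 ^ b)) + rk Fin.val (QQ x c q) c' := by
  intro c'
  induction c' with
  | zero => intro _; rw [rk_zero, Nat.add_zero, Nat.add_zero]
  | succ c' ih =>
    intro h
    have h1 := rkP_step x (cell q ⟨c', h⟩)
    have h2 := rk_succ (QQ x c q) ⟨c', h⟩
    have h3 : ((cell q ⟨c', h⟩ : Fin (2 ^ (t + b))) : ℕ) = q * 2 ^ b + c' := rfl
    have h5 : ((⟨c', h⟩ : Fin (2 ^ b)) : ℕ) = c' := rfl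
    have h6 := QQ_iff x c q ⟨c', h⟩
    rw [h3] at h1 h6
    rw [h5] at h2
    rw [← Nat.add_assoc, h1, h2]
    by_cases hx : x (Sum.inr (cell q ⟨c', h⟩, 0)) = true
    · rw [if_pos hx, ← Nat.add_assoc, ph_succ c.2, ih (by omega), Nat.add_assoc]
      congr 2
      by_cases hg : (off x + rkP x (q * 2 ^ b + c')) % 2 ^ b = c
      · rw [if_pos hg, if_pos (h6.2 ⟨hx, hg⟩)]
      · rw [if_neg hg, if_neg fun h7 => hg (h6.1 h7).2]
    · rw [if_neg hx, Nat.add_zero, ih (by omega), if_neg fun h7 => hx (h6.1 h7).1, Nat.add_zero]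

private theorem row_lt {t b : ℕ} (x : In (t + b) → Bool) (q : Fin (2 ^ t)) (d : Fin (2 ^ b))
    (hd : x (Sum.inr (cell q d, 0)) = true) : rkP (row x q) d < 2 ^ b := by
  have h1 := rk_lt_card Fin.val (fun i : Fin (2 ^ b) => row x q (Sum.inr (i, 0))) (a := d) hd
  have h2 := cn_le (row x q)
  exact lt_of_lt_of_le h1 h2

private theorem ph_cell {t b : ℕ} (x : In (t + b) → Bool) (c : Fin (2 ^ b)) (q : Fin (2 ^ t))
    (d : Fin (2 ^ b)) (hd : x (Sum.inr (cell q d, 0)) = true)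
    (hg : (off x + rkP x (cell q d)) % 2 ^ b = c) :
    ph (2 ^ b) c (off x + rkP x (q * 2 ^ b)) = (off x + rkP x (cell q d)) / 2 ^ b := by
  have h1 := row_lt x q d hd
  have h2 := rkP_cell x q d
  exact ph_of c.2 hg (by omega) (by omega)

private theorem rk_QQ {t b : ℕ} (x : In (t + b) → Bool) (c : Fin (2 ^ b)) (q : Fin (2 ^ t)) :
    rk Fin.val (QQ x c q) (2 ^ b) = if GG b (row x q) (c, 0) = true then 1 else 0 := by
  rw [rk_eq_card _ _ fun a => a.2, GG_row]
  by_cases h : ∃ d : Fin (2 ^ b), x (Sum.inr (cell q d, 0)) = true ∧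
      x (Sum.inr (cell q d, 0)) = true ∧ (off x + rkP x (cell q d)) % 2 ^ b = c
  · rw [if_pos (decide_eq_true h), card_eq_one]
    obtain ⟨d, hd, -, hg⟩ := h
    refine ⟨d, ?_⟩
    ext d'
    rw [mem_filter, mem_singleton]
    constructor
    · rintro ⟨-, h1⟩
      rw [QQ_iff] at h1
      have h2 := ph_cell x c q d hd hg
      have h3 := ph_cell x c q d' h1.1 h1.2
      have h4 : off x + rkP x (cell q d) = off x + rkP x (cell q d') := by
        rw [← Nat.div_add_mod (off x + rkP x (cell q d)) (2 ^ b),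
          ← Nat.div_add_mod (off x + rkP x (cell q d')) (2 ^ b), ← h2, ← h3, hg, h1.2]
      have h5 : rkP x (cell q d') = rkP x (cell q d) := by omega
      have h6 := rk_inj Fin.val (fun i : Fin (2 ^ (t + b)) => x (Sum.inr (i, 0)))
        (a := cell q d') (a' := cell q d) h1.1 hd h5
      have h7 : (q : ℕ) * 2 ^ b + d' = q * 2 ^ b + d := h6
      exact Fin.ext (by omega)
    · rintro rfl
      exact ⟨mem_univ _, (QQ_iff _ _ _ _).2 ⟨hd, hg⟩⟩
  · rw [if_neg (by rw [decide_eq_true_eq]; exact h), card_eq_zero, filter_eq_empty_iff]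
    intro d _ h1
    rw [QQ_iff] at h1
    exact h ⟨d, h1.1, h1.1, h1.2⟩

private theorem ph_col {t b : ℕ} (x : In (t + b) → Bool) (c : Fin (2 ^ b)) :
    ∀ q : ℕ, q ≤ 2 ^ t → cof x c + rkP (col x c) q =
      ph (2 ^ b) c (off x + rkP x (q * 2 ^ b)) := by
  intro q
  induction q with
  | zero =>
    intro _
    rw [rkP_zero, Nat.zero_mul, rkP_zero, Nat.add_zero, Nat.add_zero, ph_off c.2]
    rfl
  | succ q ih =>
    intro h
    have h1 := rkP_step (col x c) ⟨q, h⟩
    have h2 := ph_row x c ⟨q, h⟩ (2 ^ b) le_rfl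
    rw [rk_QQ] at h2
    have h3 : ((⟨q, h⟩ : Fin (2 ^ t)) : ℕ) = q := rfl
    rw [h3] at h1 h2
    have h4 : col x c (Sum.inr (⟨q, h⟩, 0)) = GG b (row x ⟨q, h⟩) (c, 0) := rfl
    rw [h4] at h1
    rw [h1, ← Nat.add_assoc, ih (by omega), Nat.succ_mul, h2]

theorem tPro : S_Pro := by
  intro t b x p c e
  have key : ∀ (q : Fin (2 ^ t)) (d : Fin (2 ^ b)), x (Sum.inr (cell q d, 0)) = true →
      (off x + rkP x (cell q d)) % 2 ^ b = c →
      (off (col x c) + rkP (col x c) q) % 2 ^ t =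
        (off x + rkP x (cell q d)) / 2 ^ b % 2 ^ t := by
    intro q d hd hg
    rw [off_col, Nat.mod_add_mod, ph_col x c q q.2.le, ph_cell x c q d hd hg]
  have split : ∀ g : ℕ, g % 2 ^ (t + b) = ((cell p c : Fin (2 ^ (t + b))) : ℕ) ↔
      g % 2 ^ b = c ∧ g / 2 ^ b % 2 ^ t = p := by
    intro g
    have h1 : g % 2 ^ (t + b) = g % 2 ^ b + 2 ^ b * (g / 2 ^ b % 2 ^ t) := by
      rw [pow_add, Nat.mul_comm, Nat.mod_mul]
    have h2 : ((cell p c : Fin (2 ^ (t + b))) : ℕ) = p * 2 ^ b + c := rfl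
    rw [h1, h2]
    have h3 : g % 2 ^ b < 2 ^ b := Nat.mod_lt _ (Nat.two_pow_pos b)
    constructor
    · intro h
      have h4 : g % 2 ^ b = c := by
        have h5 := congrArg (fun n => n % 2 ^ b) h
        simp only [Nat.add_mul_mod_self_left, Nat.mod_mod] at h5
        rw [Nat.mul_comm, Nat.mul_add_mod, Nat.mod_eq_of_lt c.2] at h5
        exact h5
      refine ⟨h4, ?_⟩
      rw [h4] at h
      have h6 : 2 ^ b * (g / 2 ^ b % 2 ^ t) = 2 ^ b * p := by
        rw [Nat.mul_comm _ (p : ℕ)]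
        omega
      exact Nat.eq_of_mul_eq_mul_left (Nat.two_pow_pos b) h6
    · rintro ⟨h4, h5⟩
      rw [h4, h5, Nat.mul_comm]
      omega
  unfold GG
  rw [decide_eq_decide]
  change (∃ q : Fin (2 ^ t), GG b (row x q) (c, 0) = true ∧ GG b (row x q) (c, e) = true ∧
    (off (col x c) + rkP (col x c) q) % 2 ^ t = p) ↔
    ∃ i : Fin (2 ^ (t + b)), x (Sum.inr (i, 0)) = true ∧ x (Sum.inr (i, e)) = true ∧
      (off x + rkP x i) % 2 ^ (t + b) = ((cell p c : Fin (2 ^ (t + b))) : ℕ)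
  constructor
  · rintro ⟨q, -, h2, h3⟩
    rw [GG_row, decide_eq_true_eq] at h2
    obtain ⟨d, hd, he, hg⟩ := h2
    refine ⟨cell q d, hd, he, ?_⟩
    rw [split]
    exact ⟨hg, by rw [← key q d hd hg, h3]⟩
  · rintro ⟨i, h1, h2, h3⟩
    obtain ⟨q, d, rfl⟩ := exists_cell i
    rw [split] at h3
    refine ⟨q, ?_, ?_, ?_⟩
    · rw [GG_row, decide_eq_true_eq]
      exact ⟨d, h1, h1, h3.1⟩
    · rw [GG_row, decide_eq_true_eq]
      exact ⟨d, h1, h2, h3.1⟩
    · rw [key q d h1 h3.1, h3.2]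

end Pool.Agent.Lin
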