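import Pool.Agent.Lib.MP_76b24b_lcS.Spec

/-!
# MP_76b24b_lc, package S: `S_Rec`
-/

set_option autoImplicit false

namespace Pool.Agent.Lin

open Finset

theorem tRec (h1 : S_Idx) (h2 : S_Bat) (h3 : S_Prd) : S_Rec := by
  obtain ⟨i1, i2⟩ := h1
  obtain ⟨C₁, hC₁⟩ := h2
  obtain ⟨C₂, hC₂⟩ := h3
  refine ⟨C₁ + C₂, fun s t S hs hst hF => ?_⟩
  obtain ⟨b, rfl⟩ : ∃ b, s = b + 2 := ⟨s - 2, by omega⟩
  have hb : 0 < b := by omega
  have e0 : b + 2 - 2 = b := by omega
  rw [e0]
  set X₁ : ℕ := 2 ^ (t - (b + 2) + 2) * (2 * S + C₁ * 2 ^ (b + 2)) with hX₁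
  set X : ℕ := 2 ^ (t - (b + 2) + 2) * (2 * S + (C₁ + C₂) * 2 ^ (b + 2)) with hX
  have hXX : X₁ + C₂ * 2 ^ t ≤ X := by
    have e1 : (2 : ℕ) ^ (t - (b + 2) + 2) * 2 ^ (b + 2) = 2 ^ t * 4 := by
      rw [← pow_add, show t - (b + 2) + 2 + (b + 2) = t + 2 by omega, pow_add]
      norm_num
    have e2 : X = X₁ + C₂ * (2 ^ (t - (b + 2) + 2) * 2 ^ (b + 2)) := by
      rw [hX, hX₁]
      ring
    rw [e2, e1]
    have := Nat.mul_le_mul_left C₂ (Nat.le_mul_of_pos_right (2 ^ t) (show 0 < 4 by norm_num))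
    omega
  -- small instances
  have small : ∀ u ≤ b, Cx (BG (Fin (2 ^ (t - u))) u) X₁ := by
    intro u hu
    have g1 := hC₁ (b - u) u S (by
      rw [show b - u + u + 2 = b + 2 by omega]
      exact hF)
    rw [show b - u + u = b by omega] at g1
    have g2 := i2 (Fin (2 ^ (b - u))) (Fin (2 ^ (t - (b + 2) + 2))) u _ g1
    refine (i1 _ (Fin (2 ^ (t - u))) u _ ?_ g2).mono ?_
    · rw [Fintype.card_prod, Fintype.card_fin, Fintype.card_fin, Fintype.card_fin, ← pow_add]
      congr 1
      omega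
    · rw [Fintype.card_fin, hX₁]
      refine Nat.mul_le_mul_left _ (Nat.add_le_add_left (Nat.mul_le_mul_left _ ?_) _)
      exact Nat.pow_le_pow_right (by norm_num) (by omega)
  have main : ∀ u, u ≤ t → Cx (BG (Fin (2 ^ (t - u))) u) ((u / b + 1) * X) := by
    intro u
    induction u using Nat.strong_induction_on with
    | _ u ih =>
      intro hut
      rcases Nat.lt_or_ge b u with hu | hu
      · have g1 : Cx (BG (Fin (2 ^ (t - u)) × Fin (2 ^ (u - b))) b) X₁ := by
          refine i1 _ _ b _ ?_ (small b le_rfl)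
          rw [Fintype.card_prod, Fintype.card_fin, Fintype.card_fin, Fintype.card_fin, ← pow_add]
          congr 1
          omega
        have g2 : Cx (BG (Fin (2 ^ (t - u)) × Fin (2 ^ b)) (u - b)) (((u - b) / b + 1) * X) := by
          refine i1 _ _ (u - b) _ ?_ (ih (u - b) (by omega) (by omega))
          rw [Fintype.card_prod, Fintype.card_fin, Fintype.card_fin, Fintype.card_fin, ← pow_add]
          congr 1
          omega
        have g3 := hC₂ (t - u) (u - b) b _ _ g1 g2
        rw [show u - b + b = u by omega, show t - u + (u - b) + b = t by omega] at g3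
        refine g3.mono ?_
        have e3 : (u - b) / b + 1 = u / b := by
          rw [← Nat.add_div_right _ hb]
          congr 1
          omega
        rw [e3, Nat.add_mul, Nat.one_mul]
        omega
      · refine (small u hu).mono ?_
        calc X₁ ≤ X := by omega
          _ = 1 * X := (Nat.one_mul X).symm
          _ ≤ (u / b + 1) * X := Nat.mul_le_mul_right X (Nat.le_add_left 1 _)
  refine i1 _ (Fin 1) t _ ?_ (main t le_rfl)
  rw [Fintype.card_fin, Fintype.card_fin, Nat.sub_self, pow_zero]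

end Pool.Agent.Lin
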