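import Pool.Agent.Lib.MP_76b24b_lcS.Base

/-!
# MP_76b24b_lc, package S: self-reducibility of stable sorting (statements)

`F(n)` = the smallest size of a circuit for `f` on words of length `n`. THEOREM. There is `C` such that
`F(n) / n ≤ C (log n / log m) (F(m) / m + 1)` for all `2 ≤ m ≤ n`. COROLLARY: `F(n) = o(n log n)` or
`F(n) ≥ c n log n` for all `n ≥ 2`.

Every statement is a separate module `MP_76b24b_lcS/Xxx.lean` with `theorem tXxx (h1 : S_Used1) ... :
S_Xxx`; the statements used are HYPOTHESES (also those of package L: `S_Add`, `S_Pop`, `S_Thr`,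
`S_Naive`, `S_Cnt`, `S_Lst` in `MP_76b24b_lcL/Spec.lean`). The closure properties of `Cx` (`mono, congr,
proj, out, comp, inp, keep, pair, gate, fam, blocks, layer, const, consts, ext`) are in
`MP_76b24b_lcL/Base.lean`; definitions and basic lemmas in `Base.lean` of this folder. The proof of
`Pre.lean` in package L shows how chains of adders, blocks and renamings of wires are written.
-/

set_option autoImplicit false

namespace Pool.Agent.Lin

open Finset

/-- **Idx** (50 lines). Renaming of the instances, and copies.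

Proof. (1) `e : β ≃ α` (`Fintype.equivOfCardEq`); `Cx.inp` with `ρ (a, z) = (e.symm a, z)`, `Cx.out` with
`ρ' (b, y) = (e b, y)`. (2) `Cx.blocks` and the renaming `(β × α) × In t ↔ β × (α × In t)`. -/
def S_Idx : Prop :=
  (∀ (α β : Type) [Fintype α] [Fintype β] (t S : ℕ), Fintype.card α = Fintype.card β →
    Cx (BG α t) S → Cx (BG β t) S) ∧
  ∀ (α β : Type) [Fintype β] (t S : ℕ), Cx (BG α t) S →
    Cx (BG (β × α) t) (Fintype.card β * S)

/-- **Trm** (130 lines, uses `S_Add`, `S_Pop`, `S_Thr`). The thermometers of one instance.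

Proof. `S_Pop b` for the bits `x (inr (i, 0))`: the `b + 1` digits of `cn x ≤ 2 ^ b`. The digits of `off x`
with one zero more (`Cx.const`): `b + 1` digits. `off x + cn x < 2 ^ (b + 1)` (`off_lt`, `cn_le`), so `S_Add`
with `k = b + 1` gives its digits (`num_testBit`). `S_Thr` with `k = b + 1` (`2 ^ (b + 1) = 2 * 2 ^ b`) for
`off x` and for `off x + cn x`: `A i = [i < off x]` (used for `i < 2 ^ b`), `Z j = [j < off x + cn x]`, and
`[i + off x + cn x < 2 * 2 ^ b] = ¬ Z (Fin.rev i)` (one gate each). At most `17 * 2 ^ b + 1 + 5 (b + 1) +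
16 * 2 ^ b + 2 * 2 ^ b` gates, `b + 1 ≤ 2 ^ b`. -/
def S_Trm : Prop :=
  ∃ C : ℕ, ∀ b : ℕ, Cx (fun (x : In b → Bool) (y : Fin (2 ^ b) ⊕ Fin (2 ^ (b + 1))) =>
    Sum.elim (fun i : Fin (2 ^ b) => decide ((i : ℕ) < off x))
      (fun i : Fin (2 ^ (b + 1)) => decide ((i : ℕ) + off x + cn x < 2 * 2 ^ b)) y) (C * 2 ^ b)

/-- **Wrd** (130 lines, combinatorics). The word of the batch.

Proof. `n = 2 ^ b`. `wpos b (k, z) = k * (4 n) + pos z` with `pos z < 4 n`: `rk_lex`. Every block has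
`off + cn + (2 n - off - cn) = 2 n` letters (`off < n`, `cn ≤ n`; the cells are a sum type:
`Fintype.sum_sum_type` or `card_disjSum`-like, `card (filter (i < m) (Fin N)) = m` for `m ≤ N`), and in a
block the number of letters before the cell `inr (inl i)` is `off + rkP i`. So the rank of the cell
`(k', inr (inl i))` is `k' * (2 n) + off + rkP i`, and `off + rkP i < 2 n` if this cell has a letter
(`rkP i < cn` by `rk_lt_card`). Letters with `wQ` are in cells `(k', inr (inl i))`. -/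
def S_Wrd : Prop :=
  ∀ (K b : ℕ) (x : Fin K × In b → Bool) (k : Fin K) (e : Fin 2) (q : ℕ), q < 2 * 2 ^ b →
    cmp (wpos b) (wP b x) (wQ b e x) (k * (2 * 2 ^ b) + q) =
      decide (∃ i : Fin (2 ^ b), x (k, Sum.inr (i, 0)) = true ∧ x (k, Sum.inr (i, e)) = true ∧
        (off fun z => x (k, z)) + (rkP (fun z => x (k, z)) i) = q)

/-- **Bat** (200 lines, uses `S_Trm`, `S_Wrd`). `2 ^ a` instances with two copies of the circuit for `f`.

Proof. `n = 2 ^ b`, `N = 2 ^ (a + b + 2)`. `ε : Fin (2 ^ a) × (Fin n ⊕ (Fin n ⊕ Fin (2 ^ (b + 1)))) ≃ Fin N`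
with `(ε p : ℕ) = wpos b p` (`wpos b p < N`, injective, both sides have `2 ^ a * 4 * 2 ^ b` elements:
`Fintype.bijective_iff_injective_and_card`, `Equiv.ofBijective`). `S_Trm` for all instances (`Cx.blocks`).
For `e = 0, 1` the input of `F` is `y (j, 0) = P j && Q j`, `y (j, 1) = !P j` with `P j = wP b x (ε.symm j)`,
`Q j = wQ b e x (ε.symm j)`: one gate for each bit (`Cx.layer`, the inputs are bits of `x` and of `S_Trm`;
`P && Q` is `x (k, inr (i, 0)) && x (k, inr (i, e))` in the middle part and false elsewhere). Output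
`(k, (p, e))`: the OR of the outputs `(j, 0)` of the copy `e` for `j = k * (2 n) + p` and
`j = k * (2 n) + (n + p)` (`< N`). `cmp_equiv` and `S_Wrd`; as `off + rkP i < 2 n` for a cell with a letter,
`(off + rkP i) % n = p` iff `off + rkP i` is `p` or `n + p`. Gates: `C₁ 2 ^ (a + b) + 2 (8 * 2 ^ (a + b)) + 2 S +
2 * 2 ^ (a + b)`. -/
def S_Bat : Prop :=
  ∃ C : ℕ, ∀ a b S : ℕ, FF (2 ^ (a + b + 2)) S →
    Cx (BG (Fin (2 ^ a)) b) (2 * S + C * 2 ^ (a + b))

/-- **PrM** (150 lines, uses `S_Add`, `S_Pop`). The offsets of the rows.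

Proof (compare `MP_76b24b_lcL/Pre.lean`). `S_Pop b` for all rows (`Cx.blocks`, the cell `(q, c)` of the
row `q` is `cell q c`): the digits of the number `m q` of the letters of the row `q`, `17 * 2 ^ (t + b)`
gates. `rkP x ((q + 1) * 2 ^ b) = rkP x (q * 2 ^ b) + m q`. Induction on `q`: the `b` digits of
`off x + rkP x (q * 2 ^ b)`; `q = 0`: inputs; step: `S_Add b` for these digits and the first `b` digits of
`m q` (`num_testBit_mod`, `testBit_congr`), `5 b ≤ 5 * 2 ^ b` gates. -/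
def S_PrM : Prop :=
  ∃ C : ℕ, ∀ t b : ℕ, Cx (fun (x : In (t + b) → Bool) (p : Fin (2 ^ t) × Fin b) =>
    (off x + rkP x (p.1 * 2 ^ b)).testBit p.2) (C * 2 ^ (t + b))

/-- **Cof** (130 lines, uses `S_Add`, `S_Thr`). The offsets of the columns.

Proof. `w c = [c < off x % 2 ^ b]`: `S_Thr b` for the first `b` digits (`off_mod`) if `b > 0`; `b = 0`: false
(`Cx.const`). The other `t` digits are those of `off x / 2 ^ b` (`off_div`). `t = 0`: no outputs. `t > 0`: for
every column `c` (`Cx.fam`) `S_Add t` for the digits of `off x / 2 ^ b` and the digits `w c, 0, .., 0` of the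
number `[c < off x % 2 ^ b]` (a constant wire): `5 t + 1 ≤ 6 * 2 ^ t` gates; the output of `S_Add` are the
digits `i < t` of the sum `cof x c`. -/
def S_Cof : Prop :=
  ∃ C : ℕ, ∀ t b : ℕ, Cx (fun (x : In (t + b) → Bool) (p : Fin (2 ^ b) × Fin t) =>
    (cof x p.1).testBit p.2) (C * 2 ^ (t + b))

/-- **Pro** (200 lines, combinatorics). Rotated compaction of a matrix: first the rows, then the
columns.

Proof. `B = 2 ^ b`, `R = 2 ^ t`, `o = off x`, `G q = o + rkP x (q * B)` (`G 0 = o`), `g i = o + rkP x i` for a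
place `i < R B`; for the cell `i = cell q c'`: `rkP x i = rkP x (q B) + rkP (row x q) c'` (`rk_lex`, `K = R`,
`L = B`, after `rk_equiv`; or induction on `c'` with `rk_succ`). By `off_row`: the letter `c'` of the row `q`
has the place `g (cell q c') % B`, so
(1) `GG b (row x q) (c, e)` iff there is `c'` with a letter in `cell q c'`, `x (inr (cell q c', e))` and
`g (cell q c') % B = c`.
The letters of the row `q` have the `g`-values `G q, G q + 1, ..., G (q + 1) - 1` (`exists_rk`), at most `B`.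
Let `φ y = (y + B - 1 - c) / B` for `c < B`. (2) `φ o = cof x c`: write `o = B u + v`, `v < B`.
(3) `φ (G q) + (if GG b (row x q) (c, 0) then 1 else 0) = φ (G (q + 1))`: `G (q + 1) - G q ≤ B`, and the numbers
`y` with `y % B = c` are those with `φ (y + 1) = φ y + 1` (`φ` is constant otherwise). (4) By induction on `q`
(`rk_succ`): `cof x c + rkP (col x c) q = φ (G q)` for `q < R`. (5) If `g (cell q c') % B = c` for a letter of
the row `q` then `G q ≤ g < G q + B`, so `φ (G q) = g / B`. So `(off (col x c) + rkP (col x c) q) % R =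
(g / B) % R` (`off_col`, `Nat.mod_add_mod`), and `g % (R B) = p B + c` iff `g % B = c` and `g / B % R = p`.
With (1) for `(c, 0)` and `(c, e)`: in the row `q` there is only one letter with `g % B = c`, so the
conditions (letter, marked) are about the same cell. -/
def S_Pro : Prop :=
  ∀ (t b : ℕ) (x : In (t + b) → Bool) (p : Fin (2 ^ t)) (c : Fin (2 ^ b)) (e : Fin 2),
    GG t (col x c) (p, e) = GG (t + b) x (cell p c, e)

/-- **Prd** (180 lines, uses `S_PrM`, `S_Cof`, `S_Pro`). The product.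

Proof. `S_PrM` and `S_Cof` for all instances (`Cx.blocks`), keep the inputs. The input `((k, q), z)` of the
row circuit is `row x_k q z`: `z = inl τ` from `S_PrM`, `z = inr (c, e)` is the input `(k, inr (cell q c, e))`.
Keep everything. The input `((k, c), z)` of the column circuit is `col x_k c z`: `z = inl τ` from `S_Cof`,
`z = inr (q, e)` is the output `((k, q), (c, e))` of the row circuit. The output `(k, (i, e))` is the output
`((k, c), (p, e))` of the column circuit for `i = cell p c` (`exists_cell`: `p = i / 2 ^ b`, `c = i % 2 ^ b`), by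
`S_Pro`. Gates: `2 ^ a (C₁ + C₂) 2 ^ (t + b) + S + S'`. -/
def S_Prd : Prop :=
  ∃ C : ℕ, ∀ a t b S S' : ℕ, Cx (BG (Fin (2 ^ a) × Fin (2 ^ t)) b) S →
    Cx (BG (Fin (2 ^ a) × Fin (2 ^ b)) t) S' →
    Cx (BG (Fin (2 ^ a)) (t + b)) (S + S' + C * 2 ^ (a + t + b))

/-- **Rec** (130 lines, uses `S_Idx`, `S_Bat`, `S_Prd`). The recursion.

Proof. `b = s - 2`, `C = C₁ + C₂` (`C₁` from `S_Bat`, `C₂` from `S_Prd`), `X = 2 ^ (t - s + 2) (2 S + C 2 ^ s)`.
(1) For `u ≤ b`: `Cx (BG (Fin (2 ^ (t - u))) u) (2 ^ (t - s + 2) (2 S + C₁ 2 ^ s))`: `S_Bat` with `a = b - u`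
(`a + u + 2 = s`, `2 ^ (a + u) ≤ 2 ^ s`), and `2 ^ (t - s + 2)` copies (`S_Idx`; `(t - s + 2) + (b - u) = t - u`).
(2) By strong induction on `u ≤ t`: `Cx (BG (Fin (2 ^ (t - u))) u) ((u / b + 1) X)`: `u ≤ b` by (1). `u > b`:
`S_Prd` with `a = t - u`, `t := u - b`, `b`: the rows are `2 ^ (t - u) * 2 ^ (u - b) = 2 ^ (t - b)` instances of
the size `b` (1), the columns are `2 ^ (t - u) * 2 ^ b = 2 ^ (t - (u - b))` instances of the size `u - b`
(induction, `(u - b) / b + 1 = u / b`); `C₂ 2 ^ t ≤ C₂ 2 ^ (t - s + 2) 2 ^ s`. `u = t`: the claim. -/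
def S_Rec : Prop :=
  ∃ C : ℕ, ∀ s t S : ℕ, 3 ≤ s → s ≤ t → FF (2 ^ s) S →
    Cx (BG (Fin 1) t) ((t / (s - 2) + 1) * (2 ^ (t - s + 2) * (2 * S + C * 2 ^ s)))

/-- **GF** (80 lines). The rotated compaction with the offset `0`.

Proof. For the input `y` of `FF` take `x (0, inl τ) = false` (one constant), `x (0, inr (i, 0)) = !y (i, 1)`
(`= P i`, `2 ^ t` gates), `x (0, inr (i, 1)) = y (i, 0)` (`= P i && Q i`). `off = 0`, `rkP i < 2 ^ t`, so
`BG .. (0, (j, 1)) = cmp P Q j`, and `BG .. (0, (j, 0))` says that some letter has the rank `j`, that is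
`j < card` (`exists_rk`, `rk_lt_card`); the output `(j, 1)` is its negation (`2 ^ t` gates). -/
def S_GF : Prop :=
  ∀ t S : ℕ, Cx (BG (Fin 1) t) S → FF (2 ^ t) (S + 4 * 2 ^ t)

/-- **Pad** (80 lines).

Proof. `n = 0`: no outputs, `F := fun _ p => p.1.elim0`. `n > 0`: for the circuit of length `m` take the letters
`2` (bits `false, true`: two constants) at the places `i ≥ n`; `P' i = P i` for `i < n` and false otherwise; the
ranks and `card` do not change. -/
def S_Pad : Prop :=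
  ∀ n m S : ℕ, n ≤ m → FF m S → FF n (S + 2)

/-- **Exn** (60 lines, uses `S_Naive`, `S_Cnt`). Some circuit for the length `8`.

Proof. `P i = !y (i, 1)`, output `(j, 0)` by `S_Naive` with `k = 3` for `P` and `y (i, 0)`, output `(j, 1)` is the
negation of `S_Cnt` with `n = 8`. -/
def S_Exn : Prop := ∃ S : ℕ, FF 8 S

/-- **FzA** (150 lines, uses `S_Lst`). From the format of the frozen statement to `FF`.

Proof. Evaluation: for every `x` there is `v : (Fin n × Fin 2) ⊕ Fin s → Bool` with `v (inl i) = x i` and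
`v (inr g) = op g (v (left g)) (v (right g))` (strong recursion on `g`, for instance by induction on `k ≤ s` for
functions which satisfy the equations for the gates `< k`), and it is unique (strong induction). `F x (j, c)` is
its value at `out j c`; `Circ F s` by uniqueness. For `P`, `Q` let `w i = 2` if `P i` is false, `1` if `P i`, `Q i`,
`0` otherwise; `y (i, 0) = decide (w i = 1)`, `y (i, 1) = decide (w i = 2)`, and `S_Lst` for `w`. -/
def S_FzA : Prop := ∀ n s : ℕ, Sol n s → FF n s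

/-- **FzB** (80 lines, uses `S_Lst`). From `FF` to the format of the frozen statement.

Proof. `FF` gives `F`, `Circ F t` with `t ≤ s`. For `w : Fin n → Fin 3` take `P i = decide (w i ≠ 2)`,
`Q i = decide (w i = 1)`; `S_Lst`. -/
def S_FzB : Prop := ∀ n s : ℕ, FF n s → ∃ t ≤ s, Sol n t

/-- **Inq** (150 lines, uses `S_Rec`, `S_GF`, `S_Pad`, `S_Exn`). The inequality.

Proof. CASE `m ≥ 8`: `s = Nat.log 2 m ≥ 3` (`2 ^ s ≤ m < 2 ^ (s + 1)`), `t = Nat.log 2 n + 1` (`n < 2 ^ t ≤ 2 n`),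
`s ≤ t`. `S_Pad`: `FF (2 ^ s) (S + 2)`; `S_Rec`, `S_GF`, `S_Pad`: `FF n T` with
`T = (t / (s - 2) + 1) (2 ^ (t - s + 2) (2 (S + 2) + C 2 ^ s)) + 4 * 2 ^ t + 2`. Now `(t / (s - 2) + 1) s ≤ 4 t`
(`s ≤ 3 (s - 2)`, `s ≤ t`), `t ≤ 2 log n`, `2 ^ (t - s + 2) * 2 ^ (s + 1) = 8 * 2 ^ t ≤ 16 n` so
`2 ^ (t - s + 2) * m ≤ 16 n`, `2 (S + 2) + C 2 ^ s ≤ (C + 4) (S + m)`: `T * (m log m) ≤
8 log n * 16 n * (C + 4) (S + m) + 10 n * m * log n`. CASE `m < 8`, `n ≥ 8`: the first case for the length `8`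
and `S₈` (`S_Exn`): `T * 24 ≤ C' (n log n) (S₈ + 8)`, and `m log m ≤ 14`, `S + m ≥ 1`. CASE `n < 8`: `S_Pad`:
`T = S₈ + 2`. -/
def S_Inq : Prop :=
  ∃ C : ℕ, ∀ m n S : ℕ, 2 ≤ m → m ≤ n → FF m S →
    ∃ T : ℕ, FF n T ∧ T * (m * Nat.log 2 m) ≤ C * (n * Nat.log 2 n) * (S + m)

/-- **Dch** (150 lines, uses `S_Inq`, `S_FzA`, `S_FzB`). The dichotomy.

Proof. Suppose the second alternative fails: for every `c > 0` there are `m ≥ 2`, `s` with `Sol m s` and
`s < c m logb 2 m`. (1) `Sol m 0` is false for `m ≥ 2`: there are no gates, so `out 0 1` is an input. It is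
not `(i, 1)`: take the word with `x i = 2` and the other letters `0` (the first letter of the result is `0`). It
is not `(i, 0)`: take the word `2 .. 2`. (2) For all `c > 0`, `M ≥ 2` there are `m ≥ M` and `s` with `Sol m s`,
`s < c m logb 2 m`: apply the failure to `min c (1 / (M logb 2 M))`; `s ≥ 1` by (1), so
`M logb 2 M < m logb 2 m`, `m > M`. (3) Let `ε > 0`, `C` from `S_Inq`, `c = ε / (4 (C + 1))`, `M` with
`1 / Nat.log 2 M ≤ c`, `m`, `s` as in (2). For `n ≥ m`, `S_Inq` with `S_FzA`, `S_FzB` gives `Sol n t` with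
`t (m log m) ≤ C (n log n) (s + m)`, so `t ≤ C n log n (2 c + 1 / log m) ≤ 3 C c n logb 2 n ≤ ε n logb 2 n`
(`Nat.log 2 k ≤ Real.logb 2 k ≤ 2 Nat.log 2 k` for `k ≥ 2`). -/
def S_Dch : Prop :=
  (∀ ε : ℝ, 0 < ε → ∃ N : ℕ, ∀ n : ℕ, N ≤ n → ∃ t : ℕ, Sol n t ∧
    (t : ℝ) ≤ ε * (n * Real.logb 2 n)) ∨
  ∃ c : ℝ, 0 < c ∧ ∀ n : ℕ, 2 ≤ n → ∀ t : ℕ, Sol n t → c * (n * Real.logb 2 n) ≤ t

end Pool.Agent.Lin
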