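import Pool.Agent.Lib.MP_76b24b_lcS.Spec

/-!
# MP_76b24b_lc, package S, module Trm: the thermometers of one instance
-/

set_option autoImplicit false

namespace Pool.Agent.Lin

open Finset

private theorem trm_off (b : ℕ) : Cx (fun (x : In b → Bool) (t : Fin (b + 1)) =>
    (off x).testBit t) 1 := by
  have hne : Nonempty (In b) := ⟨Sum.inr (⟨0, Nat.two_pow_pos b⟩, 0)⟩
  have h1 : Cx (fun (x : In b → Bool) (τ : Fin b) => x (Sum.inl τ)) 0 :=
    Cx.proj (fun τ : Fin b => (Sum.inl τ : In b))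
  have h2 : Cx (fun (_ : In b → Bool) (_ : Unit) => false) 1 := Cx.const false
  have h3 := (h1.pair h2).out (fun t : Fin (b + 1) =>
    if h : (t : ℕ) < b then (Sum.inl ⟨t, h⟩ : Fin b ⊕ Unit) else Sum.inr ())
  rw [Nat.zero_add] at h3
  refine h3.congr fun x t => ?_
  rw [off, testBit_num]
  by_cases h : (t : ℕ) < b
  · simp only [h, dif_pos, Sum.elim_inl]
  · simp only [h, dif_neg, not_false_eq_true, Sum.elim_inr]

private theorem trm_cn (hP : S_Pop) (b : ℕ) : Cx (fun (x : In b → Bool) (t : Fin (b + 1)) =>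
    (cn x).testBit t) (17 * 2 ^ b) :=
  (hP b).inp (fun i : Fin (2 ^ b) => (Sum.inr (i, 0) : In b))

private theorem two_pow_succ (b : ℕ) : 2 ^ (b + 1) = 2 * 2 ^ b := by
  rw [pow_succ, Nat.mul_comm]

private theorem trm_sum (hA : S_Add) (hP : S_Pop) (b : ℕ) :
    Cx (fun (x : In b → Bool) (t : Fin (b + 1)) => (off x + cn x).testBit t)
      (1 + 17 * 2 ^ b + 5 * (b + 1)) := by
  refine (((trm_off b).pair (trm_cn hP b)).comp (hA (b + 1))).congr fun x t => ?_
  have h1 : num (fun t : Fin (b + 1) => (off x).testBit t) = off x := by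
    refine num_testBit ?_
    have := off_lt x
    rw [two_pow_succ]
    omega
  have h2 : num (fun t : Fin (b + 1) => (cn x).testBit t) = cn x := by
    refine num_testBit ?_
    have := cn_le x
    have := Nat.two_pow_pos b
    rw [two_pow_succ]
    omega
  simp only [Sum.elim_inl, Sum.elim_inr, h1, h2]

theorem tTrm (hA : S_Add) (hP : S_Pop) (hT : S_Thr) : S_Trm := by
  refine ⟨42, fun b => ?_⟩
  have a1 : Cx (fun (x : In b → Bool) (j : Fin (2 ^ (b + 1))) => decide ((j : ℕ) < off x))
      (1 + 4 * 2 ^ (b + 1)) := by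
    refine ((trm_off b).comp (hT (b + 1) (Nat.succ_pos b))).congr fun x j => ?_
    have h1 : num (fun t : Fin (b + 1) => (off x).testBit t) = off x := by
      refine num_testBit ?_
      have := off_lt x
      rw [two_pow_succ]
      omega
    simp only [h1]
  have a2 : Cx (fun (x : In b → Bool) (j : Fin (2 ^ (b + 1))) =>
      decide ((j : ℕ) < off x + cn x)) (1 + 17 * 2 ^ b + 5 * (b + 1) + 4 * 2 ^ (b + 1)) := by
    refine ((trm_sum hA hP b).comp (hT (b + 1) (Nat.succ_pos b))).congr fun x j => ?_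
    have h1 : num (fun t : Fin (b + 1) => (off x + cn x).testBit t) = off x + cn x := by
      refine num_testBit ?_
      have := off_lt x
      have := cn_le x
      rw [two_pow_succ]
      omega
    simp only [h1]
  have a3 : Cx (fun (x : In b → Bool) (i : Fin (2 ^ (b + 1))) =>
      decide ((i : ℕ) + off x + cn x < 2 * 2 ^ b))
      (1 + 17 * 2 ^ b + 5 * (b + 1) + 4 * 2 ^ (b + 1) + 2 ^ (b + 1)) := by
    have h1 := a2.comp (Cx.layer (fun (_ : Fin (2 ^ (b + 1))) (u _ : Bool) => !u)
      (fun i : Fin (2 ^ (b + 1)) => Fin.rev i) (fun i => Fin.rev i))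
    rw [Fintype.card_fin] at h1
    refine h1.congr fun x i => ?_
    have hi := i.2
    rw [← decide_not, decide_eq_decide, Fin.val_rev]
    have := two_pow_succ b
    omega
  have a4 := (a1.pair a3).out (Sum.elim
    (fun i : Fin (2 ^ b) => (Sum.inl ⟨i, lt_of_lt_of_le i.2
      (Nat.pow_le_pow_right (by norm_num) (Nat.le_succ b))⟩ :
        Fin (2 ^ (b + 1)) ⊕ Fin (2 ^ (b + 1))))
    (fun i : Fin (2 ^ (b + 1)) => Sum.inr i))
  refine (a4.mono ?_).congr fun x y => ?_
  · have h1 : b + 1 ≤ 2 ^ b := Nat.lt_two_pow_self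
    have h2 := two_pow_succ b
    omega
  · rcases y with y | y <;> rfl

end Pool.Agent.Lin
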