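import Pool.Agent.Lib.MP_76b24b_lcS.Spec

/-!
# MP_76b24b_lc, package S, module Wrd: the word of the batch
-/

set_option autoImplicit false

namespace Pool.Agent.Lin

open Finset

private theorem sum_lt {N m : ℕ} (h : m ≤ N) : (∑ i : Fin N, if (i : ℕ) < m then 1 else 0) = m := by
  rw [Fin.sum_univ_eq_sum_range (fun i => if i < m then 1 else 0) N, ← Finset.card_filter]
  have h1 : (range N).filter (fun i => i < m) = range m := by
    ext i
    rw [mem_filter, mem_range, mem_range]
    omega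
  rw [h1, card_range]

private def posz (b : ℕ) (z : Fin (2 ^ b) ⊕ (Fin (2 ^ b) ⊕ Fin (2 ^ (b + 1)))) : ℕ :=
  Sum.elim (fun i : Fin (2 ^ b) => (i : ℕ))
    (Sum.elim (fun i : Fin (2 ^ b) => 2 ^ b + i) fun i : Fin (2 ^ (b + 1)) => 2 * 2 ^ b + i) z

private theorem posz_lt (b : ℕ) (z : Fin (2 ^ b) ⊕ (Fin (2 ^ b) ⊕ Fin (2 ^ (b + 1)))) :
    posz b z < 2 ^ (b + 2) := by
  have e1 : 2 ^ (b + 2) = 4 * 2 ^ b := by ring
  have e2 : 2 ^ (b + 1) = 2 * 2 ^ b := by ring
  rcases z with i | i | i
  · have := i.2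
    change (i : ℕ) < _
    omega
  · have := i.2
    change 2 ^ b + (i : ℕ) < _
    omega
  · have := i.2
    change 2 * 2 ^ b + (i : ℕ) < _
    omega

private theorem card_block {K b : ℕ} (x : Fin K × In b → Bool) (k : Fin K) :
    (univ.filter fun z => wP b x (k, z) = true).card = 2 * 2 ^ b := by
  have ho := off_lt fun z => x (k, z)
  have hc := cn_le fun z => x (k, z)
  have e2 : 2 ^ (b + 1) = 2 * 2 ^ b := by ring
  rw [card_filter, Fintype.sum_sum_type, Fintype.sum_sum_type]
  have h1 : (∑ i : Fin (2 ^ b), if wP b x (k, Sum.inl i) = true then 1 else 0) =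
      off fun z => x (k, z) := by
    rw [← sum_lt (N := 2 ^ b) (m := off fun z => x (k, z)) ho.le]
    refine sum_congr rfl fun i _ => ?_
    simp [wP]
  have h2 : (∑ i : Fin (2 ^ b), if wP b x (k, Sum.inr (Sum.inl i)) = true then 1 else 0) =
      cn fun z => x (k, z) := by
    unfold cn
    rw [card_filter]
    rfl
  have h3 : (∑ i : Fin (2 ^ (b + 1)), if wP b x (k, Sum.inr (Sum.inr i)) = true then 1 else 0) =
      2 * 2 ^ b - (off fun z => x (k, z)) - cn fun z => x (k, z) := by
    rw [← sum_lt (N := 2 ^ (b + 1))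
      (m := 2 * 2 ^ b - (off fun z => x (k, z)) - cn fun z => x (k, z)) (by omega)]
    refine sum_congr rfl fun i _ => ?_
    have h4 : (wP b x (k, Sum.inr (Sum.inr i)) = true) ↔
        (i : ℕ) < 2 * 2 ^ b - (off fun z => x (k, z)) - cn fun z => x (k, z) := by
      simp only [wP, Sum.elim_inr, decide_eq_true_eq]
      omega
    simp only [h4]
  rw [h1, h2, h3]
  omega

private theorem rk_block {K b : ℕ} (x : Fin K × In b → Bool) (k : Fin K) (i : Fin (2 ^ b)) :
    rk (posz b) (fun z => wP b x (k, z)) (2 ^ b + i) =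
      (off fun z => x (k, z)) + rkP (fun z => x (k, z)) i := by
  have ho := off_lt fun z => x (k, z)
  have hi := i.2
  unfold rk
  rw [card_filter, Fintype.sum_sum_type, Fintype.sum_sum_type]
  have h1 : (∑ j : Fin (2 ^ b), if posz b (Sum.inl j) < 2 ^ b + i ∧
      wP b x (k, Sum.inl j) = true then 1 else 0) = off fun z => x (k, z) := by
    rw [← sum_lt (N := 2 ^ b) (m := off fun z => x (k, z)) ho.le]
    refine sum_congr rfl fun j _ => ?_
    have h4 : (posz b (Sum.inl j) < 2 ^ b + i ∧ wP b x (k, Sum.inl j) = true) ↔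
        (j : ℕ) < off fun z => x (k, z) := by
      simp only [wP, posz, Sum.elim_inl, decide_eq_true_eq]
      omega
    simp only [h4]
  have h2 : (∑ j : Fin (2 ^ b), if posz b (Sum.inr (Sum.inl j)) < 2 ^ b + i ∧
      wP b x (k, Sum.inr (Sum.inl j)) = true then 1 else 0) = rkP (fun z => x (k, z)) i := by
    unfold rkP rk
    rw [card_filter]
    refine sum_congr rfl fun j _ => ?_
    have h4 : (posz b (Sum.inr (Sum.inl j)) < 2 ^ b + i ∧
        wP b x (k, Sum.inr (Sum.inl j)) = true) ↔
        ((j : ℕ) < i ∧ x (k, Sum.inr (j, 0)) = true) := by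
      simp only [wP, posz, Sum.elim_inl, Sum.elim_inr]
      constructor
      · rintro ⟨h5, h6⟩
        exact ⟨by omega, h6⟩
      · rintro ⟨h5, h6⟩
        exact ⟨by omega, h6⟩
    simp only [h4]
  have h3 : (∑ j : Fin (2 ^ (b + 1)), if posz b (Sum.inr (Sum.inr j)) < 2 ^ b + i ∧
      wP b x (k, Sum.inr (Sum.inr j)) = true then 1 else 0) = 0 := by
    refine sum_eq_zero fun j _ => ?_
    rw [if_neg]
    rintro ⟨h5, -⟩
    simp only [posz, Sum.elim_inr] at h5
    omega
  rw [h1, h2, h3, Nat.add_zero]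

private theorem rk_word {K b : ℕ} (x : Fin K × In b → Bool) (k : Fin K) (i : Fin (2 ^ b)) :
    rk (wpos b) (wP b x) (wpos b (k, Sum.inr (Sum.inl i))) =
      k * (2 * 2 ^ b) + ((off fun z => x (k, z)) + rkP (fun z => x (k, z)) i) := by
  have e1 : 2 ^ (b + 2) = 4 * 2 ^ b := by ring
  have hi := i.2
  have h := rk_lex (posz b) (posz_lt b) (wP b x) k (q := 2 ^ b + i) (by omega)
  rw [rk_block] at h
  have h2 : (∑ k' ∈ univ.filter (fun k' : Fin K => k' < k),
      (univ.filter fun z => wP b x (k', z) = true).card) = k * (2 * 2 ^ b) := by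
    rw [sum_congr rfl fun k' _ => card_block x k', sum_const, smul_eq_mul]
    congr 1
    have h3 : univ.filter (fun k' : Fin K => k' < k) = Iio k := by
      ext a
      simp
    rw [h3, Fin.card_Iio]
  rw [h2] at h
  exact h

theorem tWrd : S_Wrd := by
  intro K b x k e q hq
  unfold cmp
  rw [decide_eq_decide]
  have hlt : ∀ (k' : Fin K) (i : Fin (2 ^ b)), x (k', Sum.inr (i, 0)) = true →
      (off fun z => x (k', z)) + rkP (fun z => x (k', z)) i < 2 * 2 ^ b := by
    intro k' i h
    have ho := off_lt fun z => x (k', z)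
    have hc := cn_le fun z => x (k', z)
    have hr : rkP (fun z => x (k', z)) i < cn fun z => x (k', z) :=
      rk_lt_card Fin.val (fun i : Fin (2 ^ b) => x (k', Sum.inr (i, 0))) h
    omega
  constructor
  · rintro ⟨⟨k', z⟩, h1, h2, h3⟩
    rcases z with i | i | i
    · exact absurd h2 (by simp [wQ])
    · have h1' : x (k', Sum.inr (i, 0)) = true := h1
      have h2' : x (k', Sum.inr (i, e)) = true := h2
      rw [rk_word] at h3
      have h4 := hlt k' i h1'
      have h5 : (k' : ℕ) = k := by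
        rcases lt_trichotomy (k' : ℕ) k with h5 | h5 | h5
        · have h6 : ((k' : ℕ) + 1) * (2 * 2 ^ b) ≤ k * (2 * 2 ^ b) := Nat.mul_le_mul_right _ h5
          rw [Nat.succ_mul] at h6
          omega
        · exact h5
        · have h6 : ((k : ℕ) + 1) * (2 * 2 ^ b) ≤ k' * (2 * 2 ^ b) := Nat.mul_le_mul_right _ h5
          rw [Nat.succ_mul] at h6
          omega
      have h6 : k' = k := Fin.ext h5
      subst h6
      exact ⟨i, h1', h2', by omega⟩
    · exact absurd h2 (by simp [wQ])
  · rintro ⟨i, h1, h2, h3⟩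
    refine ⟨(k, Sum.inr (Sum.inl i)), h1, h2, ?_⟩
    rw [rk_word, h3]

end Pool.Agent.Lin
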